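import Pool.Agent.K6.H12.UR.Def

/-!
The piece BZ: a common divisor of the values of coprime polynomials at a point of a line divides
a value of a fixed polynomial.
-/

set_option autoImplicit false

namespace Pool.Agent.K6.H12.UR

open Polynomial

/-- The substitution `x_i ↦ x_i + v_i X`. -/
noncomputable def bzShift {n : ℕ} (v : Fin n → ℤ) :
    MvPolynomial (Fin n) ℤ →+* (MvPolynomial (Fin n) ℤ)[X] :=
  MvPolynomial.eval₂Hom (C.comp MvPolynomial.C)
    fun i => C (MvPolynomial.X i) + C (MvPolynomial.C (v i)) * X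

/-- The automorphism `x_i ↦ x_i + v_i X`, `X ↦ X`. -/
noncomputable def bzAut {n : ℕ} (v : Fin n → ℤ) :
    (MvPolynomial (Fin n) ℤ)[X] →+* (MvPolynomial (Fin n) ℤ)[X] :=
  Polynomial.eval₂RingHom (bzShift v) X

lemma bzAut_C {n : ℕ} (v : Fin n → ℤ) (p : MvPolynomial (Fin n) ℤ) :
    bzAut v (C p) = bzShift v p := by
  simp [bzAut]

lemma bzAut_X {n : ℕ} (v : Fin n → ℤ) : bzAut v X = X := by
  simp [bzAut]

lemma bzShift_C {n : ℕ} (v : Fin n → ℤ) (c : ℤ) :
    bzShift v (MvPolynomial.C c) = C (MvPolynomial.C c) := by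
  simp [bzShift]

lemma bzShift_X {n : ℕ} (v : Fin n → ℤ) (i : Fin n) :
    bzShift v (MvPolynomial.X i) = C (MvPolynomial.X i) + C (MvPolynomial.C (v i)) * X := by
  simp [bzShift]

lemma bzAut_shift {n : ℕ} (v : Fin n → ℤ) (p : MvPolynomial (Fin n) ℤ) :
    bzAut (fun i => -v i) (bzShift v p) = C p := by
  have h : (bzAut (fun i => -v i)).comp (bzShift v) = C := by
    apply MvPolynomial.ringHom_ext
    · intro r
      simp only [RingHom.comp_apply, bzShift_C, bzAut_C]
    · intro i
      simp only [RingHom.comp_apply, bzShift_X, map_add, map_mul, bzAut_C, bzShift_C, bzAut_X, map_neg]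
      ring
  exact DFunLike.congr_fun h p

lemma bzAut_aut {n : ℕ} (v : Fin n → ℤ) (g : (MvPolynomial (Fin n) ℤ)[X]) :
    bzAut v (bzAut (fun i => -v i) g) = g := by
  have h : (bzAut v).comp (bzAut (fun i => -v i)) = RingHom.id _ := by
    apply Polynomial.ringHom_ext
    · intro p
      simp only [RingHom.comp_apply, bzAut_C, RingHom.id_apply]
      have := bzAut_shift (fun i => -v i) p
      simpa using this
    · simp only [RingHom.comp_apply, bzAut_X, RingHom.id_apply]
  exact DFunLike.congr_fun h g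

/-- the value of the substitution at the point `(a, s)` -/
lemma bzShift_eval {n : ℕ} (v a : Fin n → ℤ) (s : ℤ) (p : MvPolynomial (Fin n) ℤ) :
    MvPolynomial.eval a ((bzShift v p).eval (MvPolynomial.C s)) = MvPolynomial.eval (a + s • v) p := by
  have h : ((MvPolynomial.eval a).comp (Polynomial.evalRingHom (MvPolynomial.C s))).comp (bzShift v) =
      MvPolynomial.eval (a + s • v) := by
    apply MvPolynomial.ringHom_ext
    · intro r
      simp
    · intro i
      simp [bzShift_X]
      ring
  exact DFunLike.congr_fun h p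

/-- a polynomial whose extension to `ℚ` is a unit is a constant -/
lemma bz_const {n : ℕ} (h : MvPolynomial (Fin n) ℤ)
    (hu : IsUnit (MvPolynomial.map (Int.castRingHom ℚ) h)) :
    ∃ c : ℤ, h = MvPolynomial.C c := by
  have h1 := (MvPolynomial.isUnit_iff_totalDegree_of_isReduced.1 hu).2
  refine ⟨MvPolynomial.coeff 0 h, ?_⟩
  have h2 : MvPolynomial.totalDegree h = 0 := by
    rw [← h1]
    simp only [MvPolynomial.totalDegree]
    rw [MvPolynomial.support_map_of_injective _ (RingHom.injective_int (Int.castRingHom ℚ))]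
  exact MvPolynomial.totalDegree_eq_zero_iff_eq_C.1 h2

/-- one of the polynomials is not zero -/
lemma bz_exists {n M : ℕ} {F : Fin M → MvPolynomial (Fin n) ℤ} (hF : Coprime F) :
    ∃ i, F i ≠ 0 := by
  by_contra hcon
  push Not at hcon
  have h1 : IsUnit (0 : MvPolynomial (Fin n) ℚ) := hF 0 fun i => by
    rw [hcon i, map_zero]
  rw [isUnit_zero_iff] at h1
  exact zero_ne_one h1

/-- a divisor of a nonzero constant is a constant -/
lemma bz_dvdC {A : Type*} [CommRing A] [IsDomain A] {f : A} (hf : f ≠ 0) {g : A[X]}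
    (h : g ∣ C f) : ∃ c, g = C c := by
  have h3 := Polynomial.natDegree_le_of_dvd h (Polynomial.C_ne_zero.2 hf)
  rw [Polynomial.natDegree_C] at h3
  exact ⟨_, Polynomial.eq_C_of_natDegree_eq_zero (Nat.le_zero.1 h3)⟩

/-- divisibility of constants -/
lemma bz_CdvdC {A : Type*} [CommRing A] {f h : A} (hd : (C h : A[X]) ∣ C f) : h ∣ f := by
  have h4 := (Polynomial.C_dvd_iff_dvd_coeff h (C f)).1 hd 0
  rwa [Polynomial.coeff_C_zero] at h4

/-- a common divisor of the `F_i (x + X v)` has degree `0` in `X` -/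
lemma bz_common {n M : ℕ} (F : Fin M → MvPolynomial (Fin n) ℤ) (hF : Coprime F) (v : Fin n → ℤ)
    (g : (MvPolynomial (Fin n) ℤ)[X]) (hg : ∀ i, g ∣ bzShift v (F i)) : g.natDegree = 0 := by
  obtain ⟨i0, hi0⟩ := bz_exists hF
  have h1 : ∀ i, bzAut (fun i => -v i) g ∣ C (F i) := fun i => by
    obtain ⟨k, hk⟩ := hg i
    have h2 := bzAut_shift v (F i)
    rw [hk, map_mul] at h2
    exact ⟨_, h2.symm⟩
  obtain ⟨h, hh⟩ := bz_dvdC hi0 (h1 i0)
  have h3 : ∀ i, h ∣ F i := fun i => bz_CdvdC (hh ▸ h1 i)
  obtain ⟨c, hc⟩ := bz_const h (hF _ fun i => map_dvd _ (h3 i))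
  have h4 : g = C (MvPolynomial.C c) := by
    rw [← bzAut_aut v g, hh, bzAut_C, hc, bzShift_C]
  rw [h4, Polynomial.natDegree_C]

/-- polynomials over a factorial ring whose common divisors are constant generate a nonzero
constant -/
lemma bz_gen {A : Type*} [CommRing A] [IsDomain A] [UniqueFactorizationMonoid A] {M : ℕ}
    (P : Fin M → A[X]) (hex : ∃ i, P i ≠ 0) (h : ∀ g : A[X], (∀ i, g ∣ P i) → g.natDegree = 0) :
    ∃ (b : A) (U : Fin M → A[X]), b ≠ 0 ∧ ∑ i, U i * P i = C b := by
  classical
  set K := FractionRing A with hK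
  have hinj : Function.Injective (algebraMap A K) := IsFractionRing.injective A K
  have hinjp : Function.Injective (Polynomial.map (algebraMap A K)) := Polynomial.map_injective _ hinj
  obtain ⟨i0, hi0⟩ := hex
  obtain ⟨g, hg⟩ := (IsPrincipalIdealRing.principal (Ideal.span (Set.range fun i =>
      (P i).map (algebraMap A K)))).principal
  have hgd : ∀ i, g ∣ (P i).map (algebraMap A K) := fun i => by
    have : (P i).map (algebraMap A K) ∈ Ideal.span (Set.range fun i =>
      (P i).map (algebraMap A K)) := Ideal.subset_span ⟨i, rfl⟩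
    rw [hg] at this
    exact Ideal.mem_span_singleton.1 this
  have hg0 : g ≠ 0 := by
    rintro rfl
    have := hgd i0
    rw [zero_dvd_iff] at this
    exact hi0 ((Polynomial.map_eq_zero_iff hinj).1 this)
  let _ : NormalizedGCDMonoid A := Classical.choice inferInstance
  obtain ⟨b, hb, hb2⟩ := IsLocalization.integerNormalization_spec (nonZeroDivisors A) g
  set g1 := IsLocalization.integerNormalization (nonZeroDivisors A) g with hg1
  have hb0 : algebraMap A K b ≠ 0 := by
    intro h0
    exact nonZeroDivisors.ne_zero hb (hinj (by rw [h0, map_zero]))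
  have hb3 : Polynomial.map (algebraMap A K) g1 = C (algebraMap A K b) * g := by
    rw [hb2, ← algebraMap_smul K b g, Polynomial.smul_eq_C_mul]
  have hg10 : g1 ≠ 0 := by
    rintro h0
    rw [h0, Polynomial.map_zero] at hb3
    exact mul_ne_zero (by simpa using hb0) hg0 hb3.symm
  have hgp : (Polynomial.map (algebraMap A K) g1.primPart) ∣ g := by
    have h1 : Polynomial.map (algebraMap A K) g1.primPart ∣ Polynomial.map (algebraMap A K) g1 := 
      Polynomial.map_dvd _ ⟨C g1.content, by rw [mul_comm]; exact g1.eq_C_content_mul_primPart⟩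
    rw [hb3] at h1
    have h2 : IsUnit (C (algebraMap A K b) : K[X]) := Polynomial.isUnit_C.2 hb0.isUnit
    exact (h2.dvd_mul_left).1 h1
  have hgP : ∀ i, g1.primPart ∣ P i := fun i => by
    by_cases hPi : P i = 0
    · rw [hPi]; exact dvd_zero _
    have h1 : Polynomial.map (algebraMap A K) g1.primPart ∣ (P i).map (algebraMap A K) :=
      hgp.trans (hgd i)
    have h2 : (P i).map (algebraMap A K) = C (algebraMap A K (P i).content) *
        ((P i).primPart).map (algebraMap A K) := by
      conv_lhs => rw [(P i).eq_C_content_mul_primPart]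
      rw [Polynomial.map_mul, Polynomial.map_C]
    have h3 : IsUnit (C (algebraMap A K (P i).content) : K[X]) := by
      refine Polynomial.isUnit_C.2 (IsUnit.mk0 _ ?_)
      intro h0
      exact (mt Polynomial.content_eq_zero_iff.1 hPi) (hinj (by rw [h0, map_zero]))
    rw [h2] at h1
    have h4 := (h3.dvd_mul_left).1 h1
    exact ((Polynomial.IsPrimitive.dvd_iff_fraction_map_dvd_fraction_map K g1.isPrimitive_primPart).2 h4).trans ⟨C (P i).content, by
        rw [mul_comm]; exact (P i).eq_C_content_mul_primPart⟩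
  have hdeg := h _ hgP
  rw [Polynomial.natDegree_primPart] at hdeg
  have hdg : g.natDegree = 0 := by
    have h1 : (Polynomial.map (algebraMap A K) g1).natDegree = 0 := by
      rw [Polynomial.natDegree_map_eq_of_injective hinj, hdeg]
    rw [hb3, Polynomial.natDegree_C_mul hb0] at h1
    exact h1
  have hgu : IsUnit g := by
    obtain ⟨c, hc⟩ : ∃ c, g = C c := ⟨_, Polynomial.eq_C_of_natDegree_eq_zero hdg⟩
    rw [hc]
    refine Polynomial.isUnit_C.2 (IsUnit.mk0 _ ?_)
    rintro rfl
    exact hg0 (by rw [hc, map_zero])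
  have htop : Ideal.span (Set.range fun i => (P i).map (algebraMap A K)) = ⊤ := by
    rw [hg]
    exact Ideal.span_singleton_eq_top.2 hgu
  have h1 : (1 : K[X]) ∈ Ideal.span (Set.range fun i => (P i).map (algebraMap A K)) := by
    rw [htop]; trivial
  obtain ⟨c, hc⟩ := Ideal.mem_span_range_iff_exists_fun.1 h1
  -- denominators
  have hden : ∀ i, ∃ d : A, d ≠ 0 ∧ ∃ u : A[X], u.map (algebraMap A K) = C (algebraMap A K d) * c i := by
    intro i
    obtain ⟨d, hd1, hd⟩ := IsLocalization.integerNormalization_spec (nonZeroDivisors A) (c i)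
    refine ⟨d, nonZeroDivisors.ne_zero hd1, IsLocalization.integerNormalization (nonZeroDivisors A) (c i), ?_⟩
    rw [hd, ← algebraMap_smul K d (c i), Polynomial.smul_eq_C_mul]
  choose d hd u hu using hden
  refine ⟨∏ i, d i, fun i => C (∏ j ∈ Finset.univ.erase i, d j) * u i,
    Finset.prod_ne_zero_iff.2 fun i _ => hd i, ?_⟩
  apply hinjp
  rw [Polynomial.map_C, Polynomial.map_sum]
  calc ∑ i, Polynomial.map (algebraMap A K) (C (∏ j ∈ Finset.univ.erase i, d j) * u i * P i)
      = ∑ i, C (algebraMap A K (∏ j, d j)) * (c i * (P i).map (algebraMap A K)) := by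
        refine Finset.sum_congr rfl fun i _ => ?_
        rw [Polynomial.map_mul, Polynomial.map_mul, Polynomial.map_C, hu,
          ← Finset.mul_prod_erase Finset.univ d (Finset.mem_univ i), map_mul, C_mul]
        ring
    _ = C (algebraMap A K (∏ j, d j)) := by
        rw [← Finset.mul_sum, hc, mul_one]

theorem t_BZ : S_BZ := by
  intro n M F hF v
  obtain ⟨i0, hi0⟩ := bz_exists hF
  have hP0 : bzShift v (F i0) ≠ 0 := by
    intro h0
    have h1 := bzAut_shift v (F i0)
    rw [h0, map_zero] at h1
    exact hi0 (Polynomial.C_eq_zero.1 h1.symm)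
  obtain ⟨R, U, hR, hU⟩ := bz_gen (fun i => bzShift v (F i)) ⟨i0, hP0⟩ (bz_common F hF v)
  refine ⟨R, hR, fun a s d hd => ?_⟩
  have h1 : MvPolynomial.eval a R =
      ∑ i, MvPolynomial.eval a ((U i).eval (MvPolynomial.C s)) * MvPolynomial.eval (a + s • v) (F i) := by
    have h2 := congrArg (fun p : (MvPolynomial (Fin n) ℤ)[X] =>
      MvPolynomial.eval a (p.eval (MvPolynomial.C s))) hU
    simp only [Polynomial.eval_finsetSum, Polynomial.eval_mul, Polynomial.eval_C, map_sum, map_mul,
      bzShift_eval] at h2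
    exact h2.symm
  rw [h1]
  exact Finset.dvd_sum fun i _ => (hd i).mul_left _

end Pool.Agent.K6.H12.UR
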