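import Pool.Agent.K6.H12.UR.Def

set_option autoImplicit false

/-!
DC (helper53): counting along the lines of direction `v`.
-/

namespace Pool.Agent.K6.H12.UR

theorem t_DC : S_DC := by
  intro n v L hv P _ B
  have h1 : ∑ a ∈ box n (B + B * L),
      ((Finset.range (B + 1)).filter fun s : ℕ => P (a + (s : ℤ) • v)).card =
      ∑ s ∈ Finset.range (B + 1),
        ((box n (B + B * L)).filter fun a => P (a + (s : ℤ) • v)).card := by
    simp only [Finset.card_filter]
    exact Finset.sum_comm
  rw [h1]
  have h2 : (B + 1) * ((box n B).filter P).card =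
      ∑ _s ∈ Finset.range (B + 1), ((box n B).filter P).card := by
    rw [Finset.sum_const, Finset.card_range, smul_eq_mul]
  rw [h2]
  refine Finset.sum_le_sum fun s hs => ?_
  have hs' : s ≤ B := Nat.lt_succ_iff.1 (Finset.mem_range.1 hs)
  refine Finset.card_le_card_of_injOn (fun t => t - (s : ℤ) • v) ?_ ?_
  · intro t ht
    have ht' := Finset.mem_filter.1 (Finset.mem_coe.1 ht)
    refine Finset.mem_coe.2 (Finset.mem_filter.2 ⟨?_, ?_⟩)
    · have h3 := ht'.1
      simp only [box, Fintype.mem_piFinset, Finset.mem_Icc] at h3 ⊢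
      intro i
      have h4 := h3 i
      have h5 := abs_le.1 (hv i)
      have h6 : |(s : ℤ) * v i| ≤ (B : ℤ) * L := by
        rw [abs_mul, abs_of_nonneg (Int.natCast_nonneg s)]
        exact mul_le_mul (by exact_mod_cast hs') (hv i) (abs_nonneg _) (Int.natCast_nonneg B)
      have h7 := abs_le.1 h6
      simp only [Pi.sub_apply, Pi.smul_apply, smul_eq_mul]
      push_cast
      constructor <;> linarith [h4.1, h4.2, h7.1, h7.2]
    · show P (t - (s : ℤ) • v + (s : ℤ) • v)
      rw [sub_add_cancel]
      exact ht'.2
  · intro t _ t' _ h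
    exact sub_left_injective h

end Pool.Agent.K6.H12.UR
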