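import Mathlib

/-!
Statements of the number theory part: rational points of unirational varieties.
-/

set_option autoImplicit false

namespace Pool.Agent.K6.H12.UR

/-- The box of all integer vectors with entries of absolute value at most `B`. -/
noncomputable def box (n B : ℕ) : Finset (Fin n → ℤ) := Fintype.piFinset fun _ => Finset.Icc (-(B : ℤ)) B

/-- The integral polynomials `F_i` have no common factor over `ℚ`. -/
def Coprime {n M : ℕ} (F : Fin M → MvPolynomial (Fin n) ℤ) : Prop :=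
  ∀ g : MvPolynomial (Fin n) ℚ, (∀ i, g ∣ MvPolynomial.map (Int.castRingHom ℚ) (F i)) → IsUnit g

/-- BZ. A common divisor of the values at a point of the line `a + s v` divides `R(a)`. -/
def S_BZ : Prop := ∀ (n M : ℕ) (F : Fin M → MvPolynomial (Fin n) ℤ), Coprime F →
  ∀ v : Fin n → ℤ, ∃ R : MvPolynomial (Fin n) ℤ, R ≠ 0 ∧ ∀ (a : Fin n → ℤ) (s d : ℤ),
    (∀ i, d ∣ MvPolynomial.eval (a + s • v) (F i)) → d ∣ MvPolynomial.eval a R

/-- SM. A polynomial with integral coefficients of degree `e` has few small values. -/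
def S_SM : Prop := ∀ (f : Polynomial ℤ) (e : ℕ), 0 < e → f.natDegree = e → ∀ r : ℝ, 0 < r →
  ∀ S : Finset ℤ, (∀ s ∈ S, |((f.eval s : ℤ) : ℝ)| < r ^ e) → (S.card : ℝ) ≤ e * (2 * r + 1)

/-- GC. The values of a polynomial of degree `e` are rarely divisible by `d`. -/
def S_GC : Prop := ∀ (f : Polynomial ℤ) (e Δ N : ℕ), f.natDegree ≤ e → f.coeff e ≠ 0 → 0 < Δ →
  ∀ d : ℤ, |f.coeff e| * (Δ : ℤ) ^ (e * (e + 1)) < d →
    ∀ S : Finset ℕ, (∀ s ∈ S, s < N ∧ d ∣ f.eval (s : ℤ)) → S.card ≤ e * (N / Δ + 1)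

/-- DC. Counting along the lines of direction `v`. -/
def S_DC : Prop := ∀ (n : ℕ) (v : Fin n → ℤ) (L : ℕ), (∀ i, |v i| ≤ L) →
  ∀ (P : (Fin n → ℤ) → Prop) [DecidablePred P] (B : ℕ),
    (B + 1) * ((box n B).filter P).card ≤ ∑ a ∈ box n (B + B * L),
      ((Finset.range (B + 1)).filter fun s : ℕ => P (a + (s : ℤ) • v)).card

/-- PB. The size of the values of a polynomial. -/
def S_PB : Prop := ∀ (n : ℕ) (R : MvPolynomial (Fin n) ℤ), ∃ C K : ℕ, ∀ B : ℕ, 1 ≤ B →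
  ∀ a ∈ box n B, |MvPolynomial.eval a R| ≤ C * (B : ℤ) ^ K

/-- SZ. The number of the zeros of a polynomial in a box. -/
def S_SZ : Prop := ∀ (n : ℕ), 1 ≤ n → ∀ R : MvPolynomial (Fin n) ℤ, R ≠ 0 → ∃ C : ℕ,
  ∀ B : ℕ, 1 ≤ B →
    ((box n B).filter fun a => MvPolynomial.eval a R = 0).card ≤ C * B ^ (n - 1)

/-- LD. The restriction of a form to a line. -/
def S_LD : Prop := ∀ (n e : ℕ) (F : MvPolynomial (Fin n) ℤ), F.IsHomogeneous e →
  ∀ v a : Fin n → ℤ, ∃ f : Polynomial ℤ, (∀ s : ℤ, f.eval s = MvPolynomial.eval (a + s • v) F) ∧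
    f.natDegree ≤ e ∧ f.coeff e = MvPolynomial.eval v F

/-- NT. For almost all `t` in the box the values `F_i(t)` have the expected size and almost no
common divisor. -/
def S_NT : Prop := ∀ (n e M : ℕ), 1 ≤ n → 0 < e → ∀ F : Fin M → MvPolynomial (Fin n) ℤ,
  (∀ i, (F i).IsHomogeneous e) → Coprime F → ∀ κ : ℝ, 0 < κ → ∃ δ C : ℝ, 0 < δ ∧ 0 < C ∧
    ∀ B : ℕ, 1 ≤ B → ∀ S : Finset (Fin n → ℤ), S ⊆ box n B →
      (∀ t ∈ S, (∃ d : ℤ, (∀ i, d ∣ MvPolynomial.eval t (F i)) ∧ (B : ℝ) ^ κ < |(d : ℝ)|) ∨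
        ∀ i, |((MvPolynomial.eval t (F i) : ℤ) : ℝ)| < (B : ℝ) ^ ((e : ℝ) - κ)) →
      (S.card : ℝ) ≤ C * (B : ℝ) ^ ((n : ℝ) - δ)

end Pool.Agent.K6.H12.UR
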