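import Mathlib
import Pool.Agent.K6.H12.KS.Fin

/-!
The heights along the orbits of a point where all nef classes have a large height.
-/

set_option autoImplicit false

open Filter Topology

namespace Pool.Agent.K6.H12.UR

open Pool.Agent.Q8.KS Pool.Agent.K6.H12.KS

variable {G : Type} [Group G]

lemma sqrt_bound {a D H : ℝ} (hD : 1 ≤ D) (h : a ≤ D * H) : √a ≤ D * √H := by
  have h7 : √a ≤ √(D * H) := Real.sqrt_le_sqrt h
  rw [Real.sqrt_mul (by linarith)] at h7
  have h8 : √D ≤ D := by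
    rw [Real.sqrt_le_left (by linarith)]
    nlinarith
  exact h7.trans (mul_le_mul_of_nonneg_right h8 (Real.sqrt_nonneg _))

lemma sqrt_small {T b H : ℝ} (hb : 0 < b) (hH : 0 < H) (_hT : 0 ≤ T) (h : (T / b) ^ 2 ≤ H) :
    T * √H ≤ b * H := by
  have h9 : T / b ≤ √H := Real.le_sqrt_of_sq_le h
  have h10 : √H * √H = H := Real.mul_self_sqrt hH.le
  rw [div_le_iff₀ hb] at h9
  nlinarith [Real.sqrt_nonneg H]

/-- One endomorphism. -/
theorem point_one (V : Variety G) [Nontrivial V.NS] (s : V.NS →ₗ[ℝ] V.Pic)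
    (η : V.NS →ₗ[ℝ] (V.Pt → ℝ)) (hs : ∀ D, V.cls (s D) = D) (hη : ∀ D, V.IsHeight (s D) (η D))
    (f : Morphism V V) {A : V.Pic} (hA : V.IsAmple A) {u : V.Pt → ℝ} (hu : V.IsHeight A u)
    {d : ℝ} (hd : 1 < d) (hdyn : IsDynamicalDegree f A d) {b D2 : ℝ} (hb : 0 < b)
    (hD2 : 1 ≤ D2) :
    ∃ C : ℝ, 0 < C ∧ ∀ (x : V.Pt) (H : ℝ), C ≤ H → (∀ D ∈ V.Nef, b * ‖D‖ * H ≤ η D x) →
      max 1 (u x) ≤ D2 * H →
        (∀ k : ℕ, V.deg (V.cls A) ((f.ns ^ k) (V.cls A)) * H ≤ C * u (f.pt^[k] x) ∧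
          u (f.pt^[k] x) ≤ C * (V.deg (V.cls A) ((f.ns ^ k) (V.cls A)) * H)) ∧
        IsArithmeticDegree f u x d := by
  have hd0 : 0 < d := by linarith
  obtain ⟨ℓ, c0, B, hc0, hB, hlow, hup, hmain⟩ := along V s η hs hη f hA hu hd hdyn
  obtain ⟨R, hR, hRb⟩ := lin_bound (V.deg (V.cls A))
  have hAn : V.cls A ∈ V.Nef := interior_subset hA
  obtain ⟨T, hT⟩ : ∃ T, T = B / c0 * D2 := ⟨_, rfl⟩
  obtain ⟨b', hb'⟩ : ∃ b', b' = b / R / 2 := ⟨_, rfl⟩
  have hT0 : 0 < T := by rw [hT]; positivity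
  have hb'0 : 0 < b' := by rw [hb']; positivity
  obtain ⟨C, hC⟩ : ∃ C, C = 1 + (T / b') ^ 2 + 1 / b' + T + 1 / c0 := ⟨_, rfl⟩
  have hC0 : 0 < C := by rw [hC]; positivity
  have e0 : 0 ≤ (T / b') ^ 2 := sq_nonneg _
  have e1 : 0 < 1 / b' := by positivity
  have e2 : 0 < 1 / c0 := by positivity
  refine ⟨C, hC0, fun x H hH hD hux => ?_⟩
  have hH1 : 1 ≤ H := by linarith
  have hH0 : 0 < H := by linarith
  have hboth : ∀ k : ℕ, b' * (V.deg (V.cls A) ((f.ns ^ k) (V.cls A)) * H) ≤ u (f.pt^[k] x) ∧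
      u (f.pt^[k] x) ≤ T * (V.deg (V.cls A) ((f.ns ^ k) (V.cls A)) * H) := by
    intro k
    obtain ⟨g, hg⟩ : ∃ g, g = gr ℓ d k := ⟨_, rfl⟩
    obtain ⟨D, hDd⟩ : ∃ D, D = V.deg (V.cls A) ((f.ns ^ k) (V.cls A)) := ⟨_, rfl⟩
    obtain ⟨h1, h2⟩ := hmain k x
    have h3 := hlow k
    have h4 := hD _ (pow_mem f.nef k hAn)
    have h5 := hRb ((f.ns ^ k) (V.cls A))
    have hg0 : 0 < g := by rw [hg]; exact gr_pos ℓ hd0 k
    rw [← hg] at h1 h2 h3
    rw [← hDd] at h3 h5 ⊢
    have hgD : g ≤ D / c0 := by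
      rw [le_div_iff₀ hc0]
      linarith
    have hD0 : 0 < D := lt_of_lt_of_le (by positivity) h3
    constructor
    · have h6 := sqrt_bound hD2 hux
      have h7 : B * g * √(max 1 (u x)) ≤ D * (T * √H) := by
        calc B * g * √(max 1 (u x)) ≤ B * (D / c0) * (D2 * √H) :=
              mul_le_mul (mul_le_mul_of_nonneg_left hgD hB.le) h6 (Real.sqrt_nonneg _)
                (by positivity)
          _ = D * (T * √H) := by rw [hT]; ring
      have h8 : T * √H ≤ b' * H := sqrt_small hb'0 hH0 hT0.le (by linarith)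
      have h9 : D * (T * √H) ≤ D * (b' * H) := mul_le_mul_of_nonneg_left h8 hD0.le
      have h10 := (abs_le.1 h2).1
      have h11 : 2 * b' * (D * H) ≤ b * ‖(f.ns ^ k) (V.cls A)‖ * H := by
        have h12 : D / R ≤ ‖(f.ns ^ k) (V.cls A)‖ := by
          rw [div_le_iff₀ hR]
          linarith
        calc 2 * b' * (D * H) = b * (D / R) * H := by rw [hb']; ring
          _ ≤ b * ‖(f.ns ^ k) (V.cls A)‖ * H :=
            mul_le_mul_of_nonneg_right (mul_le_mul_of_nonneg_left h12 hb.le) hH0.le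
      have h13 : D * (b' * H) = b' * (D * H) := by ring
      linarith
    · calc u (f.pt^[k] x) ≤ B * g * max 1 (u x) := h1
        _ ≤ B * (D / c0) * (D2 * H) :=
          mul_le_mul (mul_le_mul_of_nonneg_left hgD hB.le) hux
            (le_trans zero_le_one (le_max_left _ _)) (by positivity)
        _ = T * (D * H) := by rw [hT]; ring
  have hdeg : ∀ k, c0 ≤ V.deg (V.cls A) ((f.ns ^ k) (V.cls A)) := fun k =>
    (le_mul_of_one_le_right hc0.le (gr_one_le ℓ hd k)).trans (hlow k)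
  refine ⟨fun k => ?_, ?_⟩
  · obtain ⟨h1, h2⟩ := hboth k
    have h3 := hdeg k
    obtain ⟨D, hDd⟩ : ∃ D, D = V.deg (V.cls A) ((f.ns ^ k) (V.cls A)) := ⟨_, rfl⟩
    rw [← hDd] at h1 h2 h3 ⊢
    have hDH : 0 < D * H := mul_pos (by linarith) hH0
    have hu0 : 0 < u (f.pt^[k] x) := lt_of_lt_of_le (by positivity) h1
    constructor
    · have h4 : D * H ≤ 1 / b' * u (f.pt^[k] x) := by
        rw [one_div, ← div_eq_inv_mul, le_div_iff₀ hb'0]
        linarith
      exact h4.trans (mul_le_mul_of_nonneg_right (by linarith) hu0.le)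
    · exact h2.trans (mul_le_mul_of_nonneg_right (by linarith) hDH.le)
  · unfold IsArithmeticDegree
    refine rate_of_bounds (x := b' * H) (y := T * H + 1 / c0) (by positivity) (by positivity)
      (fun k => hc0.le.trans (hdeg k)) hdyn (fun k => ?_) (fun k => ?_)
    · have h1 := (hboth k).1
      have h2 : u (f.pt^[k] x) ≤ max 1 (u (f.pt^[k] x)) := le_max_right _ _
      have h3 : b' * H * V.deg (V.cls A) ((f.ns ^ k) (V.cls A)) =
        b' * (V.deg (V.cls A) ((f.ns ^ k) (V.cls A)) * H) := by ring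
      rw [h3]
      linarith
    · have h1 := (hboth k).2
      have h3 := hdeg k
      obtain ⟨D, hDd⟩ : ∃ D, D = V.deg (V.cls A) ((f.ns ^ k) (V.cls A)) := ⟨_, rfl⟩
      rw [← hDd] at h1 h3 ⊢
      have h4 : 1 ≤ 1 / c0 * D := by
        rw [one_div, ← div_eq_inv_mul, one_le_div hc0]
        exact h3
      have hD0 : 0 < D := by linarith
      have h5 : 0 ≤ T * H * D := by positivity
      rw [add_mul]
      refine max_le (by linarith) ?_
      have h6 : T * (D * H) = T * H * D := by ring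
      linarith

/-- The comparison of the sizes of nef classes. -/
lemma consts0 (V : Variety G) {A : V.Pic} (hA : V.IsAmple A) {L : V.NS}
    (hL : L ∈ interior V.Nef) :
    ∃ P : ℝ, 1 ≤ P ∧ ∀ D ∈ V.Nef, gauge V.Nef L D ≤ P * ‖D‖ ∧ ‖D‖ ≤ P * V.deg (V.cls A) D ∧
      V.deg (V.cls A) D ≤ P * ‖D‖ ∧ ‖D‖ ≤ P * gauge V.Nef L D := by
  obtain ⟨M1, hM1, h1⟩ := gauge_le V.nef_cone hL
  obtain ⟨M2, hM2, h2⟩ := norm_le V.nef_cone (V.deg (V.cls A)) (deg_pos' V hA)
  obtain ⟨R1, hR1, h4⟩ := lin_bound (V.deg (V.cls A))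
  obtain ⟨M4, hM4, h6⟩ := norm_le_gauge V.nef_cone (V.deg (V.cls A)) (deg_pos' V hA) hL
  refine ⟨1 + M1 + M2 + R1 + M4, by linarith, fun D hD => ?_⟩
  have hn := norm_nonneg D
  have hdeg : 0 ≤ V.deg (V.cls A) D := nonneg_of_mul_nonneg_right (hn.trans (h2 D hD)) hM2
  have hg := gauge_nonneg V.Nef L D
  exact ⟨(h1 D).trans (mul_le_mul_of_nonneg_right (by linarith) hn),
    (h2 D hD).trans (mul_le_mul_of_nonneg_right (by linarith) hdeg),
    (h4 D).trans (mul_le_mul_of_nonneg_right (by linarith) hn),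
    (h6 D hD).trans (mul_le_mul_of_nonneg_right (by linarith) hg)⟩

/-- All compositions of a finite family. -/
theorem point_all {V : Variety G} [Nontrivial V.NS] {ι : Type} {f : ι → Endo V}
    {s : V.NS →ₗ[ℝ] V.Pic} {η : V.NS →ₗ[ℝ] (V.Pt → ℝ)} {u : V.Pt → ℝ} {L : V.NS} {q B : ℝ}
    (h : Err f η u L q B) (hs : ∀ D, V.cls (s D) = D) (hη : ∀ D, V.IsHeight (s D) (η D))
    {A : V.Pic} (hA : V.IsAmple A) (hu : V.IsHeight A u) {b D2 : ℝ} (hb : 0 < b)
    (hD2 : 1 ≤ D2) :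
    ∃ C : ℝ, 0 < C ∧ ∀ (x : V.Pt) (H : ℝ), C ≤ H → (∀ D ∈ V.Nef, b * ‖D‖ * H ≤ η D x) →
      max 1 (u x) ≤ D2 * H → ∀ v : List ι,
        (dg f A v * H ≤ C * u ((word f v).pt x) ∧ u ((word f v).pt x) ≤ C * (dg f A v * H)) ∧
        ∀ δ : ℝ, IsDynamicalDegree (word f v).toMorphism A δ →
          IsArithmeticDegree (word f v).toMorphism u x δ := by
  have hA' : V.IsAmple (s (V.cls A)) := by
    unfold Variety.IsAmple
    rw [hs]
    exact hA
  have hAn : V.cls A ∈ V.Nef := interior_subset hA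
  obtain ⟨P, hP, hPb⟩ := consts0 V hA h.ample
  have hP0 : 0 < P := by linarith
  obtain ⟨c', hc', hcmp⟩ := compare V hA hA' hu (hη _)
  have hc0 : 0 < c' := by linarith
  obtain ⟨K, hK, hKb⟩ := lift_bound V s η hη V (Morphism.id V) hA hu
  have hB := h.pos
  -- the degrees are bounded below
  have hdegA : 0 < V.deg (V.cls A) (V.cls A) := deg_pos' V hA _ hAn (ample_ne V hA)
  obtain ⟨a, ha, hab⟩ : ∃ a : ℝ, 0 < a ∧ ∀ w : List ι, a ≤ dg f A w := by
    refine ⟨V.deg (V.cls A) (V.cls A) / P / P / P / P, by positivity, fun w => ?_⟩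
    have h1 := (hPb _ hAn).2.2.1
    have h1' := (hPb _ hAn).2.2.2
    have h2 := h.gauge_word w (V.cls A)
    have h3 := (hPb _ ((word f w).nef _ hAn)).1
    have h4 := (hPb _ ((word f w).nef _ hAn)).2.1
    change ‖(word f w).ns (V.cls A)‖ ≤ P * dg f A w at h4
    rw [div_le_iff₀ hP0, div_le_iff₀ hP0, div_le_iff₀ hP0, div_le_iff₀ hP0]
    have h5 : gauge V.Nef L (V.cls A) ≤ P * (P * dg f A w) :=
      h2.trans (h3.trans (mul_le_mul_of_nonneg_left h4 hP0.le))
    calc V.deg (V.cls A) (V.cls A) ≤ P * ‖V.cls A‖ := h1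
      _ ≤ P * (P * gauge V.Nef L (V.cls A)) := mul_le_mul_of_nonneg_left h1' hP0.le
      _ ≤ P * (P * (P * (P * dg f A w))) :=
        mul_le_mul_of_nonneg_left (mul_le_mul_of_nonneg_left h5 hP0.le) hP0.le
      _ = _ := by ring
  obtain ⟨T, hT⟩ : ∃ T, T = B * P * D2 := ⟨_, rfl⟩
  have hT0 : 0 < T := by rw [hT]; positivity
  obtain ⟨Q1, hQ1⟩ : ∃ Q1, Q1 = 2 * P * c' / b := ⟨_, rfl⟩
  have hQ10 : 0 < Q1 := by rw [hQ1]; positivity
  obtain ⟨Q2, hQ2⟩ : ∃ Q2, Q2 = c' * (1 / a + K * P * D2 + B * P * P * D2) := ⟨_, rfl⟩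
  have hQ20 : 0 < Q2 := by rw [hQ2]; positivity
  obtain ⟨C, hC⟩ : ∃ C, C = 1 + (T / (b / 2)) ^ 2 + Q1 + Q1 / a + Q2 := ⟨_, rfl⟩
  have e0 : 0 ≤ (T / (b / 2)) ^ 2 := sq_nonneg _
  have e1 : 0 < Q1 / a := by positivity
  have hC0 : 0 < C := by linarith
  refine ⟨C, hC0, fun x H hH hD hux => ?_⟩
  have hH1 : 1 ≤ H := by linarith
  have hH0 : 0 < H := by linarith
  have hboth : ∀ v : List ι, dg f A v * H ≤ Q1 * u ((word f v).pt x) ∧
      max 1 (u ((word f v).pt x)) ≤ Q2 * (dg f A v * H) := by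
    intro v
    have hvn : (word f v).ns (V.cls A) ∈ V.Nef := (word f v).nef _ hAn
    obtain ⟨h1, h2, h3, h4⟩ := hPb _ hvn
    change ‖(word f v).ns (V.cls A)‖ ≤ P * dg f A v at h2
    change dg f A v ≤ P * ‖(word f v).ns (V.cls A)‖ at h3
    have h5 := h.err v _ hAn x
    have h6 := hD _ hvn
    have h7 := hab v
    have h8 : η ((word f v).ns (V.cls A)) x ≤ K * ‖(word f v).ns (V.cls A)‖ * max 1 (u x) :=
      (le_abs_self _).trans (hKb _ x)
    have h9 := hcmp ((word f v).pt x)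
    obtain ⟨d, hd⟩ : ∃ d, d = dg f A v := ⟨_, rfl⟩
    obtain ⟨k, hk⟩ : ∃ k, k = ‖(word f v).ns (V.cls A)‖ := ⟨_, rfl⟩
    obtain ⟨y, hy⟩ : ∃ y, y = u ((word f v).pt x) := ⟨_, rfl⟩
    obtain ⟨z, hz⟩ : ∃ z, z = η (V.cls A) ((word f v).pt x) := ⟨_, rfl⟩
    obtain ⟨g, hg⟩ : ∃ g, g = gauge V.Nef L ((word f v).ns (V.cls A)) := ⟨_, rfl⟩
    rw [← hk] at h1 h2 h3 h6 h8
    rw [← hd] at h2 h3 h7 ⊢
    rw [← hy] at h9 ⊢
    rw [← hz] at h5 h9
    rw [← hg] at h1 h5
    have hk0 : 0 ≤ k := by rw [hk]; exact norm_nonneg _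
    have hg0 : 0 ≤ g := by rw [hg]; exact gauge_nonneg _ _ _
    have hd0 : 0 < d := by linarith
    have h10 := sqrt_bound hD2 hux
    have h11 : B * g * √(max 1 (u x)) ≤ k * (T * √H) := by
      calc B * g * √(max 1 (u x)) ≤ B * (P * k) * (D2 * √H) :=
            mul_le_mul (mul_le_mul_of_nonneg_left h1 hB.le) h10 (Real.sqrt_nonneg _)
              (by positivity)
        _ = k * (T * √H) := by rw [hT]; ring
    obtain ⟨h12, h13⟩ := abs_le.1 h5
    constructor
    · have h14 : T * √H ≤ b / 2 * H := sqrt_small (by positivity) hH0 hT0.le (by linarith)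
      have h15 : k * (T * √H) ≤ k * (b / 2 * H) := mul_le_mul_of_nonneg_left h14 hk0
      have h16 : b / 2 * k * H ≤ z := by
        have : k * (b / 2 * H) = b * k * H - b / 2 * k * H := by ring
        linarith
      have h17 : d * H ≤ Q1 * max 1 y := by
        have e2 : d * H ≤ P * k * H := mul_le_mul_of_nonneg_right h3 hH0.le
        have e3 : P * k * H = (2 * P / b) * (b / 2 * k * H) := by
          field_simp
        have e4 : b / 2 * k * H ≤ c' * max 1 y := h16.trans ((le_max_right 1 _).trans h9.2)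
        have e5 : (2 * P / b) * (b / 2 * k * H) ≤ (2 * P / b) * (c' * max 1 y) :=
          mul_le_mul_of_nonneg_left e4 (by positivity)
        have e6 : (2 * P / b) * (c' * max 1 y) = Q1 * max 1 y := by
          rw [hQ1]
          ring
        linarith
      rcases max_cases 1 y with ⟨e2, _⟩ | ⟨e2, _⟩
      · exfalso
        rw [e2, mul_one] at h17
        have e3 : a * H ≤ d * H := mul_le_mul_of_nonneg_right h7 hH0.le
        have e4 : Q1 / a < H := by linarith
        rw [div_lt_iff₀ ha] at e4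
        linarith
      · rwa [e2] at h17
    · have hs1 : √H ≤ H := by
        rw [Real.sqrt_le_left (by linarith)]
        nlinarith
      have h18 : K * k * max 1 (u x) ≤ K * P * D2 * (d * H) := by
        calc K * k * max 1 (u x) ≤ K * (P * d) * (D2 * H) :=
              mul_le_mul (mul_le_mul_of_nonneg_left h2 hK.le) hux
                (le_trans zero_le_one (le_max_left _ _)) (by positivity)
          _ = _ := by ring
      have h19 : k * (T * √H) ≤ B * P * P * D2 * (d * H) := by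
        calc k * (T * √H) ≤ (P * d) * (T * H) :=
              mul_le_mul h2 (mul_le_mul_of_nonneg_left hs1 hT0.le)
                (mul_nonneg hT0.le (Real.sqrt_nonneg _)) (by positivity)
          _ = _ := by rw [hT]; ring
      have h20 : 1 ≤ 1 / a * (d * H) := by
        rw [one_div, ← div_eq_inv_mul, one_le_div ha]
        nlinarith
      have e2 : 0 ≤ K * P * D2 * (d * H) := by positivity
      have e3 : 0 ≤ B * P * P * D2 * (d * H) := by positivity
      have h21 : max 1 z ≤ (1 / a + K * P * D2 + B * P * P * D2) * (d * H) := by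
        rw [add_mul, add_mul]
        exact max_le (by linarith) (by linarith)
      calc max 1 y ≤ c' * max 1 z := h9.1
        _ ≤ c' * ((1 / a + K * P * D2 + B * P * P * D2) * (d * H)) :=
          mul_le_mul_of_nonneg_left h21 hc0.le
        _ = Q2 * (d * H) := by rw [hQ2]; ring
  intro v
  refine ⟨⟨?_, ?_⟩, fun δ hδ => ?_⟩
  · obtain ⟨h1, h2⟩ := hboth v
    have h3 := hab v
    have h4 : 0 < dg f A v * H := mul_pos (by linarith) hH0
    have h5 : 0 < u ((word f v).pt x) := pos_of_mul_pos_right (lt_of_lt_of_le h4 h1) hQ10.le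
    exact h1.trans (mul_le_mul_of_nonneg_right (by linarith) h5.le)
  · obtain ⟨h1, h2⟩ := hboth v
    have h3 := hab v
    have h4 : 0 < dg f A v * H := mul_pos (by linarith) hH0
    exact (le_max_right 1 _).trans (h2.trans (mul_le_mul_of_nonneg_right (by linarith) h4.le))
  · refine arith_of_two (Morphism.id V) (w := x) (C := Q1 + Q2) (x := H) (by positivity) hH0
      (fun v => ha.le.trans (hab v)) (fun v => ?_) (fun v => ?_) hδ
    · obtain ⟨h1, h2⟩ := hboth v
      have h3 := hab v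
      have h4 : 0 < dg f A v * H := mul_pos (by linarith) hH0
      have h5 : 0 < u ((word f v).pt x) := pos_of_mul_pos_right (lt_of_lt_of_le h4 h1) hQ10.le
      exact h1.trans (mul_le_mul_of_nonneg_right (by linarith) h5.le)
    · obtain ⟨h1, h2⟩ := hboth v
      have h3 := hab v
      have h4 : 0 < dg f A v * H := mul_pos (by linarith) hH0
      exact h2.trans (mul_le_mul_of_nonneg_right (by linarith) h4.le)

end Pool.Agent.K6.H12.UR
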