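import Mathlib
import Pool.Agent.K6.H12.UR.Pts
import Pool.Agent.K6.H12.UR.Def

/-!
Unirational varieties: the rational parametrization and the heights.
-/

set_option autoImplicit false

open Filter Topology

namespace Pool.Agent.K6.H12.UR

open Pool.Agent.Q8.KS Pool.Agent.K6.H12.KS

/-- The absolute logarithmic height of the point with the integral homogeneous coordinates `x ≠ 0`:
the logarithm of `max |x_i| / gcd(x_i)`. -/
noncomputable def ht {n : ℕ} (x : Fin n → ℤ) : ℝ :=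
  Real.log (((Finset.univ.sup fun i => (x i).natAbs : ℕ) : ℝ) /
    ((Finset.univ.gcd fun i => (x i).natAbs : ℕ) : ℝ))

/-- A dominant rational map `ψ = (F_1 : ⋯ : F_M)` from the projective space `ℙ^(n-1)` over `ℚ` to the
variety `X ⊆ ℙ^(M-1)`, with the class `A = O(1)` on `X`. -/
structure Unirational {G : Type} [Group G] (X : Variety G) (A : X.Pic) where
  /-- the number of the homogeneous coordinates of the projective space -/
  n : ℕ
  two_le : 2 ≤ n
  /-- the number of the forms -/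
  M : ℕ
  /-- the degree of the forms -/
  e : ℕ
  e_pos : 0 < e
  /-- the forms -/
  F : Fin M → MvPolynomial (Fin n) ℤ
  hom : ∀ i, (F i).IsHomogeneous e
  coprime : Coprime F
  /-- the point `ψ(t)`, for `t` with `F(t) ≠ 0` -/
  pt : (Fin n → ℤ) → X.Pt
  /-- the degree `D ⋅ ψ(ℓ)` of the classes of `X` on the image of a general line `ℓ` -/
  deg : X.NS →ₗ[ℝ] ℝ
  /-- a nef class which is not numerically trivial has positive degree on a general line, because
  the map is dominant -/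
  deg_pos : ∀ D ∈ X.Nef, D ≠ 0 → 0 < deg D
  deg_A : deg (X.cls A) = e
  /-- the height of `ψ(t)` is the height of `F(t)` -/
  height_A : ∀ u : X.Pt → ℝ, X.IsHeight A u → ∃ c : ℝ, ∀ t : Fin n → ℤ,
    (fun i => MvPolynomial.eval t (F i)) ≠ 0 →
      |u (pt t) - ht (fun i => MvPolynomial.eval t (F i))| ≤ c
  /-- for a nef class `D` the height of `ψ(t)` is at most the degree times the height of `t` -/
  height_nef : ∀ D : X.Pic, X.cls D ∈ X.Nef → ∀ u : X.Pt → ℝ, X.IsHeight D u →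
    ∃ c : ℝ, ∀ t : Fin n → ℤ, (fun i => MvPolynomial.eval t (F i)) ≠ 0 →
      u (pt t) ≤ deg (X.cls D) * ht t + c

variable {G : Type} [Group G] {X : Variety G} {A : X.Pic}

/-- The values of the forms. -/
noncomputable def Unirational.val (ψ : Unirational X A) (t : Fin ψ.n → ℤ) : Fin ψ.M → ℤ :=
  fun i => MvPolynomial.eval t (ψ.F i)

/-- The loss of height. -/
noncomputable def Unirational.loss (ψ : Unirational X A) (t : Fin ψ.n → ℤ) : ℝ :=
  ψ.e * ht t - ht (ψ.val t)

/-- The uniform comparison of the heights. -/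
lemma Unirational.compare (ψ : Unirational X A) (hA : X.IsAmple A) (s : X.NS →ₗ[ℝ] X.Pic)
    (η : X.NS →ₗ[ℝ] (X.Pt → ℝ)) (hs : ∀ D, X.cls (s D) = D) (hη : ∀ D, X.IsHeight (s D) (η D))
    {u : X.Pt → ℝ} (hu : X.IsHeight A u) :
    ∃ K : ℝ, 0 < K ∧ ∀ (D : X.NS) (t : Fin ψ.n → ℤ), ψ.val t ≠ 0 →
      |η D (ψ.pt t) - ψ.deg D * ht t| ≤ K * ‖D‖ * (1 + max 0 (ψ.loss t)) := by
  let T := {t : Fin ψ.n → ℤ // ψ.val t ≠ 0}
  let Φ : X.NS →ₗ[ℝ] (T → ℝ) :=
    { toFun := fun D t => η D (ψ.pt t.1) - ψ.deg D * ht t.1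
      map_add' := fun D E => by
        funext t
        simp only [map_add, Pi.add_apply]
        ring
      map_smul' := fun r D => by
        funext t
        simp only [map_smul, Pi.smul_apply, smul_eq_mul, RingHom.id_apply]
        ring }
  obtain ⟨K, hK, h⟩ := lin_err Φ (fun t => 1 + max 0 (ψ.loss t.1))
    (fun t => by positivity) (fun D => by
      obtain ⟨M, hM, hunit⟩ := unit_le X.nef_cone hA
      obtain ⟨l, hl⟩ : ∃ l : ℝ, l = M * ‖X.cls (s D)‖ := ⟨_, rfl⟩
      have hl0 : 0 ≤ l := by rw [hl]; positivity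
      have h1 : X.cls (l • A - s D) ∈ X.Nef := by
        rw [map_sub, map_smul, hl]
        exact hunit _
      have h2 : X.cls (l • A + s D) ∈ X.Nef := by
        have := hunit (-X.cls (s D))
        rw [map_add, map_smul, hl]
        rwa [norm_neg, sub_neg_eq_add] at this
      obtain ⟨c1, hc1⟩ := ψ.height_nef _ h1 _ (height_sub X (height_smul X l hu) (hη D))
      obtain ⟨c2, hc2⟩ := ψ.height_nef _ h2 _ (height_add X (height_smul X l hu) (hη D))
      obtain ⟨c3, hc3⟩ := ψ.height_A u hu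
      refine ⟨|c1| + |c2| + l * |c3| + l, fun t => ?_⟩
      have h3 := hc1 t.1 t.2
      have h4 := hc2 t.1 t.2
      have h5 := (abs_le.1 (hc3 t.1 t.2)).1
      have e1 : ψ.deg (X.cls (l • A - s D)) = l * ψ.e - ψ.deg D := by
        rw [map_sub, map_sub, map_smul, map_smul, ψ.deg_A, hs, smul_eq_mul]
      have e2 : ψ.deg (X.cls (l • A + s D)) = l * ψ.e + ψ.deg D := by
        rw [map_add, map_add, map_smul, map_smul, ψ.deg_A, hs, smul_eq_mul]
      rw [e1] at h3
      rw [e2] at h4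
      simp only [Pi.sub_apply, Pi.add_apply, Pi.smul_apply, smul_eq_mul] at h3 h4
      have h6 : ψ.e * ht t.1 - ht (ψ.val t.1) ≤ max 0 (ψ.loss t.1) := le_max_right _ _
      have h7 : (0 : ℝ) ≤ max 0 (ψ.loss t.1) := le_max_left _ _
      have h8 : ψ.e * ht t.1 - u (ψ.pt t.1) ≤ max 0 (ψ.loss t.1) + |c3| := by
        have e3 := le_abs_self c3
        have e4 : -c3 ≤ u (ψ.pt t.1) - ht (ψ.val t.1) := h5
        linarith
      have h9 : l * (ψ.e * ht t.1 - u (ψ.pt t.1)) ≤ l * (max 0 (ψ.loss t.1) + |c3|) :=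
        mul_le_mul_of_nonneg_left h8 hl0
      have e5 := le_abs_self c1
      have e6 := le_abs_self c2
      have e7 := abs_nonneg c1
      have e8 := abs_nonneg c2
      have e9 := abs_nonneg c3
      have e10 : (|c1| + |c2| + l * |c3| + l) * (1 + max 0 (ψ.loss t.1)) =
        |c1| + |c2| + l * |c3| + l + (|c1| + |c2| + l * |c3|) * max 0 (ψ.loss t.1)
          + l * max 0 (ψ.loss t.1) := by ring
      have e11 : 0 ≤ (|c1| + |c2| + l * |c3|) * max 0 (ψ.loss t.1) := by positivity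
      show |η D (ψ.pt t.1) - ψ.deg D * ht t.1| ≤ _
      rw [e10, abs_le]
      constructor
      · nlinarith
      · nlinarith)
  exact ⟨K, hK, fun D t ht' => h D ⟨t, ht'⟩⟩

/-- The upper bound for the height of `F(t)`. -/
lemma Unirational.upper (ψ : Unirational X A) (hA : X.IsAmple A) {u : X.Pt → ℝ}
    (hu : X.IsHeight A u) :
    ∃ c : ℝ, 0 < c ∧ ∀ t : Fin ψ.n → ℤ, ψ.val t ≠ 0 → ht (ψ.val t) ≤ ψ.e * ht t + c ∧
      u (ψ.pt t) ≤ ψ.e * ht t + c := by
  obtain ⟨c1, hc1⟩ := ψ.height_nef A (interior_subset hA) u hu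
  obtain ⟨c3, hc3⟩ := ψ.height_A u hu
  refine ⟨|c1| + |c3| + 1, by positivity, fun t h0 => ?_⟩
  have h3 := hc1 t h0
  have h5 := (abs_le.1 (hc3 t h0)).1
  rw [ψ.deg_A] at h3
  have e5 := le_abs_self c1
  have e6 := le_abs_self c3
  have e7 := abs_nonneg c1
  have e8 := abs_nonneg c3
  have e4 : -c3 ≤ u (ψ.pt t) - ht (ψ.val t) := h5
  constructor
  · linarith
  · linarith

/-- **The points without a loss of height.** -/
theorem Unirational.nef_large (ψ : Unirational X A) (hA : X.IsAmple A) (s : X.NS →ₗ[ℝ] X.Pic)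
    (η : X.NS →ₗ[ℝ] (X.Pt → ℝ)) (hs : ∀ D, X.cls (s D) = D) (hη : ∀ D, X.IsHeight (s D) (η D))
    {u : X.Pt → ℝ} (hu : X.IsHeight A u) :
    ∃ κ b C : ℝ, 0 < κ ∧ 0 < b ∧ 0 < C ∧ ∀ t : Fin ψ.n → ℤ, ψ.val t ≠ 0 →
      ψ.loss t ≤ κ * ht t → C ≤ ht t →
        (∀ D ∈ X.Nef, b * ‖D‖ * ht t ≤ η D (ψ.pt t)) ∧ max 1 (u (ψ.pt t)) ≤ (ψ.e + 1) * ht t := by
  obtain ⟨K, hK, h⟩ := ψ.compare hA s η hs hη hu
  obtain ⟨M, hM, hMb⟩ := norm_le X.nef_cone ψ.deg ψ.deg_pos
  obtain ⟨c, hc, hcb⟩ := ψ.upper hA hu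
  refine ⟨1 / (4 * M * K), 1 / (2 * M), 4 * M * K + c + 1, by positivity, by positivity,
    by positivity, fun t h0 hl hC => ?_⟩
  have hMK : 0 < 4 * M * K := by positivity
  have hh : 0 < ht t := by linarith
  constructor
  · intro D hD
    have h1 := (abs_le.1 (h D t h0)).1
    have h2 := hMb D hD
    have h3 : max 0 (ψ.loss t) ≤ 1 / (4 * M * K) * ht t := max_le (by positivity) hl
    have h4 : 1 ≤ 1 / (4 * M * K) * ht t := by
      rw [one_div, ← div_eq_inv_mul, one_le_div hMK]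
      linarith
    have h5 : K * ‖D‖ * (1 + max 0 (ψ.loss t)) ≤ K * ‖D‖ * (2 * (1 / (4 * M * K) * ht t)) :=
      mul_le_mul_of_nonneg_left (by linarith) (by positivity)
    have h6 : K * ‖D‖ * (2 * (1 / (4 * M * K) * ht t)) = 1 / (2 * M) * ‖D‖ * ht t := by
      field_simp
      norm_num
    have h7 : 1 / M * ‖D‖ * ht t ≤ ψ.deg D * ht t := by
      refine mul_le_mul_of_nonneg_right ?_ hh.le
      rw [one_div, ← div_eq_inv_mul, div_le_iff₀ hM]
      linarith
    have h8 : 1 / M * ‖D‖ * ht t = 2 * (1 / (2 * M) * ‖D‖ * ht t) := by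
      field_simp
    linarith
  · have h1 := (hcb t h0).2
    have h2 : (1 : ℝ) ≤ ψ.e := by exact_mod_cast ψ.e_pos
    refine max_le ?_ ?_
    · nlinarith
    · linarith

end Pool.Agent.K6.H12.UR
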