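import Mathlib
import Pool.Agent.K6.H12.UR.Param
import Pool.Agent.K6.H12.KS.Comm

/-!
Almost all rational points of unirational varieties.
-/

set_option autoImplicit false

open Filter Topology

namespace Pool.Agent.K6.H12.UR

open Pool.Agent.Q8.KS Pool.Agent.K6.H12.KS

lemma mem_box {n B : ℕ} {t : Fin n → ℤ} : t ∈ box n B ↔ ∀ i, |t i| ≤ B := by
  unfold box
  rw [Fintype.mem_piFinset]
  refine forall_congr' fun i => ?_
  rw [Finset.mem_Icc, abs_le]

/-- The maximum of the absolute values. -/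
noncomputable def mx {n : ℕ} (x : Fin n → ℤ) : ℕ := Finset.univ.sup fun i => (x i).natAbs

/-- The greatest common divisor. -/
noncomputable def gc {n : ℕ} (x : Fin n → ℤ) : ℕ := Finset.univ.gcd fun i => (x i).natAbs

lemma ht_eq {n : ℕ} (x : Fin n → ℤ) : ht x = Real.log ((mx x : ℝ) / (gc x : ℝ)) := rfl

lemma gc_pos {n : ℕ} {x : Fin n → ℤ} (h : x ≠ 0) : 0 < gc x := by
  rw [Nat.pos_iff_ne_zero]
  intro h0
  apply h
  funext i
  have := Finset.gcd_eq_zero_iff.1 h0 i (Finset.mem_univ i)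
  rw [Int.natAbs_eq_zero] at this
  exact this

lemma le_mx {n : ℕ} (x : Fin n → ℤ) (i : Fin n) : (x i).natAbs ≤ mx x :=
  Finset.le_sup (f := fun i => (x i).natAbs) (Finset.mem_univ i)

lemma gc_dvd {n : ℕ} (x : Fin n → ℤ) (i : Fin n) : gc x ∣ (x i).natAbs :=
  Finset.gcd_dvd (Finset.mem_univ i)

lemma mx_pos {n : ℕ} {x : Fin n → ℤ} (h : x ≠ 0) : 0 < mx x := by
  obtain ⟨i, hi⟩ := Function.ne_iff.1 h
  have h1 : 0 < (x i).natAbs := Int.natAbs_pos.2 hi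
  exact lt_of_lt_of_le h1 (le_mx x i)

lemma ht_le {n B : ℕ} {t : Fin n → ℤ} (h0 : t ≠ 0) (h : t ∈ box n B) : ht t ≤ Real.log B := by
  rw [ht_eq]
  have h1 : (0 : ℝ) < mx t := by exact_mod_cast mx_pos h0
  have h2 : (1 : ℝ) ≤ gc t := by exact_mod_cast gc_pos h0
  have h3 : mx t ≤ B := by
    refine Finset.sup_le fun i _ => ?_
    have := mem_box.1 h i
    rw [Int.abs_eq_natAbs] at this
    exact_mod_cast this
  refine Real.log_le_log (by positivity) ?_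
  have h4 : (mx t : ℝ) ≤ B := by exact_mod_cast h3
  exact (div_le_self h1.le h2).trans h4

lemma le_ht {M B : ℕ} (hB : 1 ≤ B) {x : Fin M → ℤ} {a κ : ℝ}
    (h1 : ∀ d : ℤ, (∀ i, d ∣ x i) → |(d : ℝ)| ≤ (B : ℝ) ^ κ)
    (h2 : ∃ i, (B : ℝ) ^ a ≤ |((x i : ℤ) : ℝ)|) : x ≠ 0 ∧ (a - κ) * Real.log B ≤ ht x := by
  have hB0 : (0 : ℝ) < B := by exact_mod_cast hB
  obtain ⟨i, hi⟩ := h2
  have hx : x ≠ 0 := by
    rintro rfl
    simp only [Pi.zero_apply, Int.cast_zero, abs_zero] at hi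
    have := Real.rpow_pos_of_pos hB0 a
    linarith
  refine ⟨hx, ?_⟩
  have h3 : (gc x : ℝ) ≤ (B : ℝ) ^ κ := by
    have := h1 (gc x : ℤ) (fun i => by
      rw [Int.natCast_dvd]
      exact gc_dvd x i)
    rwa [Int.cast_natCast, Nat.abs_cast] at this
  have h4 : (B : ℝ) ^ a ≤ mx x := by
    refine hi.trans ?_
    rw [← Int.cast_abs, Int.abs_eq_natAbs]
    exact_mod_cast le_mx x i
  have h5 : (0 : ℝ) < gc x := by exact_mod_cast gc_pos hx
  rw [ht_eq, ← Real.log_rpow hB0, Real.rpow_sub hB0]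
  refine Real.log_le_log (by positivity) ?_
  exact div_le_div₀ (by positivity) h4 h5 h3

lemma finite_ht {n : ℕ} (C : ℝ) : {t : Fin n → ℤ | gc t = 1 ∧ ht t ≤ C}.Finite := by
  obtain ⟨B, hB⟩ := exists_nat_ge (Real.exp C)
  refine (box n B).finite_toSet.subset ?_
  rintro t ⟨h1, h2⟩
  rw [Finset.mem_coe, mem_box]
  intro i
  have h0 : t ≠ 0 := by
    rintro rfl
    have : gc (0 : Fin n → ℤ) = 0 := by
      unfold gc
      rw [Finset.gcd_eq_zero_iff]
      intro i _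
      rfl
    omega
  rw [ht_eq, h1, Nat.cast_one, div_one] at h2
  have h3 : (0 : ℝ) < mx t := by exact_mod_cast mx_pos h0
  have h4 : (mx t : ℝ) ≤ B := ((Real.log_le_iff_le_exp h3).1 h2).trans hB
  have h5 : mx t ≤ B := by exact_mod_cast h4
  have := le_mx t i
  rw [Int.abs_eq_natAbs]
  exact_mod_cast this.trans h5

lemma ncard_le_of_box {n B : ℕ} {P : (Fin n → ℤ) → Prop} {r : ℝ}
    (h : ∀ S : Finset (Fin n → ℤ), S ⊆ box n B → (∀ t ∈ S, P t) → (S.card : ℝ) ≤ r) :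
    (({t : Fin n → ℤ | (∀ i, |t i| ≤ B) ∧ P t}.ncard : ℕ) : ℝ) ≤ r := by
  classical
  have h1 : {t : Fin n → ℤ | (∀ i, |t i| ≤ B) ∧ P t} = ((box n B).filter P : Set (Fin n → ℤ)) := by
    ext t
    rw [Finset.coe_filter, Set.mem_ofPred_eq, Set.mem_ofPred_eq, mem_box]
  rw [h1, Set.ncard_coe_finset]
  exact h _ (Finset.filter_subset _ _) fun t ht => (Finset.mem_filter.1 ht).2

variable {G : Type} [Group G] {X : Variety G} {A : X.Pic}

/-- The number of points with a loss of height. -/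
theorem Unirational.count (hNT : S_NT) (ψ : Unirational X A) (hA : X.IsAmple A)
    {u : X.Pt → ℝ} (hu : X.IsHeight A u) {κ : ℝ} (hκ : 0 < κ) :
    ∃ δ C : ℝ, 0 < δ ∧ δ ≤ 1 ∧ 0 < C ∧ ∀ B : ℕ, 1 ≤ B → ∀ S : Finset (Fin ψ.n → ℤ),
      S ⊆ box ψ.n B → (∀ t ∈ S, ψ.val t = 0 ∨ κ * ht t < ψ.loss t) →
        (S.card : ℝ) ≤ C * (B : ℝ) ^ ((ψ.n : ℝ) - δ) := by
  have he : (1 : ℝ) ≤ ψ.e := by exact_mod_cast ψ.e_pos
  obtain ⟨κ₁, hκ₁, hκe, hκκ⟩ : ∃ κ₁ : ℝ, 0 < κ₁ ∧ κ₁ ≤ 1 / 8 ∧ 4 * κ₁ ≤ κ :=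
    ⟨min (1 / 8) (κ / 4), lt_min (by norm_num) (by positivity), min_le_left _ _, by
      have := min_le_right (1 / 8) (κ / 4)
      linarith⟩
  obtain ⟨δ₀, C₀, hδ₀, hC₀, hcount⟩ := hNT ψ.n ψ.e ψ.M (by have := ψ.two_le; omega) ψ.e_pos ψ.F
    ψ.hom ψ.coprime κ₁ hκ₁
  obtain ⟨c, hc, hcb⟩ := ψ.upper hA hu
  obtain ⟨B₀, hB₀⟩ := exists_nat_ge (Real.exp (4 * c))
  have hB₀1 : (1 : ℝ) ≤ B₀ := le_trans (Real.one_le_exp (by positivity)) hB₀
  have hn : (1 : ℝ) ≤ ψ.n := by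
    have := ψ.two_le
    exact_mod_cast (by omega : 1 ≤ ψ.n)
  refine ⟨min δ₀ 1, C₀ + (box ψ.n B₀).card, lt_min hδ₀ one_pos, min_le_right _ _, by positivity,
    fun B hB S hS hP => ?_⟩
  have hB1 : (1 : ℝ) ≤ B := by exact_mod_cast hB
  have hB0 : (0 : ℝ) < B := by linarith
  have hpow : (1 : ℝ) ≤ (B : ℝ) ^ ((ψ.n : ℝ) - min δ₀ 1) :=
    Real.one_le_rpow hB1 (by have := min_le_right δ₀ 1; linarith)
  rcases lt_or_ge B B₀ with hlt | hge
  · have h1 : S ⊆ box ψ.n B₀ := by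
      intro t ht'
      have h2 := mem_box.1 (hS ht')
      rw [mem_box]
      intro i
      have h3 := h2 i
      have h4 : (B : ℤ) ≤ B₀ := by exact_mod_cast hlt.le
      linarith
    have h2 : (S.card : ℝ) ≤ (box ψ.n B₀).card := by exact_mod_cast Finset.card_le_card h1
    have h3 : (0 : ℝ) ≤ ((box ψ.n B₀).card : ℝ) := Nat.cast_nonneg _
    nlinarith
  · have hlogB : 4 * c ≤ Real.log B := by
      rw [Real.le_log_iff_exp_le hB0]
      exact hB₀.trans (by exact_mod_cast hge)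
    have h1 := hcount B hB S hS (fun t htS => by
      by_contra hcon
      rw [not_or] at hcon
      obtain ⟨hc1, hc2⟩ := hcon
      push Not at hc1 hc2
      have h3 : ψ.val t ≠ 0 ∧ ((ψ.e : ℝ) - κ₁ - κ₁) * Real.log B ≤ ht (ψ.val t) :=
        le_ht hB (x := ψ.val t) hc1 hc2
      obtain ⟨h4, h5⟩ := h3
      have ht0 : t ≠ 0 := by
        rintro rfl
        apply h4
        funext i
        show MvPolynomial.eval 0 (ψ.F i) = 0
        rw [MvPolynomial.eval_zero]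
        exact (ψ.hom i).coeff_eq_zero (by
          rw [map_zero]
          exact ψ.e_pos.ne)
      have h6 := ht_le ht0 (hS htS)
      have h7 := (hcb t h4).1
      have h8 : 0 ≤ Real.log B := by linarith
      rcases hP t htS with h9 | h9
      · exact h4 h9
      · unfold Unirational.loss at h9
        -- `ht t ≥ log B / 2`
        have h10 : Real.log B / 2 ≤ ht t := by
          have e1 : ((ψ.e : ℝ) - κ₁ - κ₁) * Real.log B ≤ ψ.e * ht t + c := h5.trans h7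
          have e2 : (ψ.e : ℝ) * (Real.log B / 2) ≤ ψ.e * ht t := by nlinarith
          exact le_of_mul_le_mul_left e2 (by linarith)
        nlinarith)
    refine h1.trans ?_
    have h2 : (B : ℝ) ^ ((ψ.n : ℝ) - δ₀) ≤ (B : ℝ) ^ ((ψ.n : ℝ) - min δ₀ 1) :=
      Real.rpow_le_rpow_of_exponent_le hB1 (by have := min_le_left δ₀ 1; linarith)
    have h3 : (0 : ℝ) ≤ ((box ψ.n B₀).card : ℝ) := Nat.cast_nonneg _
    calc C₀ * (B : ℝ) ^ ((ψ.n : ℝ) - δ₀) ≤ C₀ * (B : ℝ) ^ ((ψ.n : ℝ) - min δ₀ 1) :=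
          mul_le_mul_of_nonneg_left h2 hC₀.le
      _ ≤ _ := mul_le_mul_of_nonneg_right (by linarith) (by linarith)

/-- The condition on the family of endomorphisms of `X`: either there are an ample class `L` and real
numbers `q > 1`, `Q < q ^ 2` such that all classes `f_i^* L - q L` and `Q L - f_i^* L` are nef; or
numerically trivial classes are zero in `Pic(X) ⊗ ℝ` and there is an ample class `L` such that all
classes `f_i^* L - L` are ample; or numerically trivial classes are zero, each `f_i` is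
int-amplified (`f_i^* L_i - L_i` is ample for some ample class `L_i`), and the
pullbacks `f_i^*` commute on `N^1(X)`. -/
def Cond {X : Variety G} {ι : Type} (f : ι → Endo X) : Prop :=
  Pinched f ∨ Function.Injective X.cls ∧ (Amplified f ∨ (∀ i, IntAmplified (f i)) ∧
    ∀ i j D, (f i).ns ((f j).ns D) = (f j).ns ((f i).ns D))

/-- **The main theorem.** -/
theorem main (hNT : S_NT) [Nontrivial X.NS] (hA : X.IsAmple A) (ψ : Unirational X A)
    (u : X.Pt → ℝ) (hu : X.IsHeight A u) :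
    ∃ (δ C₀ : ℝ) (T : Set (Fin ψ.n → ℤ)), 0 < δ ∧ 0 < C₀ ∧
      (∀ B : ℕ, 1 ≤ B → (({t : Fin ψ.n → ℤ | (∀ i, |t i| ≤ B) ∧ t ∈ T}.ncard : ℕ) : ℝ) ≤
        C₀ * (B : ℝ) ^ ((ψ.n : ℝ) - δ)) ∧
      (∀ t : Fin ψ.n → ℤ, ψ.val t = 0 → t ∈ T) ∧
      (∀ (f : Morphism X X) (d : ℝ), 1 < d → IsDynamicalDegree f A d → ∃ C : ℝ, 0 < C ∧
        (∀ t : Fin ψ.n → ℤ, t ∉ T → C ≤ ht t → IsArithmeticDegree f u (ψ.pt t) d ∧ ∀ k : ℕ,
          X.deg (X.cls A) ((f.ns ^ k) (X.cls A)) * ht t ≤ C * u (f.pt^[k] (ψ.pt t)) ∧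
          u (f.pt^[k] (ψ.pt t)) ≤ C * (X.deg (X.cls A) ((f.ns ^ k) (X.cls A)) * ht t)) ∧
        {t : Fin ψ.n → ℤ | gc t = 1 ∧ t ∉ T ∧ ¬ IsArithmeticDegree f u (ψ.pt t) d}.Finite ∧
        ∀ B : ℕ, 1 ≤ B → (({t : Fin ψ.n → ℤ | (∀ i, |t i| ≤ B) ∧ gc t = 1 ∧
          (ψ.val t = 0 ∨ ¬ IsArithmeticDegree f u (ψ.pt t) d)}.ncard : ℕ) : ℝ) ≤
            C * (B : ℝ) ^ ((ψ.n : ℝ) - δ)) ∧
      ∀ (ι : Type) [Finite ι] (f : ι → Endo X), Cond f → ∃ C : ℝ, 0 < C ∧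
        (∀ t : Fin ψ.n → ℤ, t ∉ T → C ≤ ht t → ∀ g : List ι,
          (X.deg (X.cls A) ((word f g).ns (X.cls A)) * ht t ≤ C * u ((word f g).pt (ψ.pt t)) ∧
          u ((word f g).pt (ψ.pt t)) ≤ C * (X.deg (X.cls A) ((word f g).ns (X.cls A)) * ht t)) ∧
          ∀ d : ℝ, IsDynamicalDegree (word f g).toMorphism A d →
            IsArithmeticDegree (word f g).toMorphism u (ψ.pt t) d) ∧
        {t : Fin ψ.n → ℤ | gc t = 1 ∧ t ∉ T ∧ ∃ (g : List ι) (d : ℝ),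
          IsDynamicalDegree (word f g).toMorphism A d ∧
            ¬ IsArithmeticDegree (word f g).toMorphism u (ψ.pt t) d}.Finite := by
  classical
  obtain ⟨s, η, hs, hη, -⟩ := exists_lift X
  obtain ⟨κ, b, C₁, hκ, hb, hC₁, hlarge⟩ := ψ.nef_large hA s η hs hη hu
  obtain ⟨δ, C₀, hδ, hδ1, hC₀, hcount⟩ := ψ.count hNT hA hu hκ
  have he : (1 : ℝ) ≤ ψ.e := by exact_mod_cast ψ.e_pos
  have hn : (1 : ℝ) ≤ ψ.n := by
    have := ψ.two_le
    exact_mod_cast (by omega : 1 ≤ ψ.n)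
  obtain ⟨T, hT⟩ : ∃ T : Set (Fin ψ.n → ℤ), T = {t | ψ.val t = 0 ∨ κ * ht t < ψ.loss t} :=
    ⟨_, rfl⟩
  have hnot : ∀ t, t ∉ T → ψ.val t ≠ 0 ∧ ψ.loss t ≤ κ * ht t := by
    intro t h
    rw [hT, Set.mem_ofPred_eq, not_or, not_lt] at h
    exact h
  refine ⟨δ, C₀, T, hδ, hC₀, fun B hB => ?_, fun t h0 => ?_, ?_, ?_⟩
  · refine ncard_le_of_box fun S hS hP => hcount B hB S hS fun t htS => ?_
    have := hP t htS
    rwa [hT] at this
  · rw [hT]
    exact Or.inl h0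
  · intro f d hd hdyn
    obtain ⟨C₂, hC₂, h2⟩ := point_one X s η hs hη f hA hu hd hdyn hb (D2 := ψ.e + 1)
      (by linarith)
    have hgood : ∀ t : Fin ψ.n → ℤ, t ∉ T → C₁ + C₂ ≤ ht t →
        (∀ k : ℕ, X.deg (X.cls A) ((f.ns ^ k) (X.cls A)) * ht t ≤ C₂ * u (f.pt^[k] (ψ.pt t)) ∧
          u (f.pt^[k] (ψ.pt t)) ≤ C₂ * (X.deg (X.cls A) ((f.ns ^ k) (X.cls A)) * ht t)) ∧
        IsArithmeticDegree f u (ψ.pt t) d := by
      intro t htT hC
      obtain ⟨h3, h4⟩ := hnot t htT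
      obtain ⟨h5, h6⟩ := hlarge t h3 h4 (by linarith)
      exact h2 (ψ.pt t) (ht t) (by linarith) h5 h6
    have hfin : {t : Fin ψ.n → ℤ | gc t = 1 ∧ t ∉ T ∧
        ¬ IsArithmeticDegree f u (ψ.pt t) d}.Finite := by
      refine (finite_ht (C₁ + C₂)).subset ?_
      rintro t ⟨h1, h3, h4⟩
      refine ⟨h1, ?_⟩
      by_contra hlt
      exact h4 (hgood t h3 (not_le.1 hlt).le).2
    obtain ⟨N, hN⟩ : ∃ N, N = hfin.toFinset.card := ⟨_, rfl⟩
    refine ⟨C₁ + C₂ + C₀ + N, by positivity, fun t htT hC => ?_, hfin, fun B hB => ?_⟩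
    · have hN0 : (0 : ℝ) ≤ N := Nat.cast_nonneg _
      have hh0 : 0 < ht t := by linarith
      obtain ⟨h3, h4⟩ := hgood t htT (by linarith)
      refine ⟨h4, fun k => ?_⟩
      obtain ⟨h5, h6⟩ := h3 k
      obtain ⟨x, hx⟩ : ∃ x, x = X.deg (X.cls A) ((f.ns ^ k) (X.cls A)) * ht t := ⟨_, rfl⟩
      obtain ⟨y, hy⟩ : ∃ y, y = u (f.pt^[k] (ψ.pt t)) := ⟨_, rfl⟩
      rw [← hx, ← hy] at h5 h6 ⊢
      have hx0 : 0 ≤ x := by
        rw [hx]
        refine mul_nonneg ?_ hh0.le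
        have hn' : (f.ns ^ k) (X.cls A) ∈ X.Nef := pow_mem f.nef k (interior_subset hA)
        rcases eq_or_ne ((f.ns ^ k) (X.cls A)) 0 with h0 | h0
        · rw [h0, map_zero]
        · exact (deg_pos' X hA _ hn' h0).le
      have hy0 : 0 ≤ y := nonneg_of_mul_nonneg_right (hx0.trans h5) hC₂
      constructor
      · exact h5.trans (mul_le_mul_of_nonneg_right (by linarith) hy0)
      · exact h6.trans (mul_le_mul_of_nonneg_right (by linarith) hx0)
    · refine ncard_le_of_box fun S hS hP => ?_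
      have hB1 : (1 : ℝ) ≤ B := by exact_mod_cast hB
      have hpow : (1 : ℝ) ≤ (B : ℝ) ^ ((ψ.n : ℝ) - δ) := Real.one_le_rpow hB1 (by linarith)
      have h3 := hcount B hB (S.filter fun t => t ∈ T)
        ((Finset.filter_subset _ _).trans hS) fun t htS => by
          have := (Finset.mem_filter.1 htS).2
          rwa [hT] at this
      have h4 : (S.filter fun t => t ∉ T) ⊆ hfin.toFinset := by
        intro t htS
        obtain ⟨h5, h6⟩ := Finset.mem_filter.1 htS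
        rw [Set.Finite.mem_toFinset]
        obtain ⟨h7, h8⟩ := hP t h5
        refine ⟨h7, h6, ?_⟩
        rcases h8 with h8 | h8
        · exact absurd h8 (hnot t h6).1
        · exact h8
      have h5 : ((S.filter fun t => t ∉ T).card : ℝ) ≤ N := by
        rw [hN]
        exact_mod_cast Finset.card_le_card h4
      have h6 : S.card = (S.filter fun t => t ∈ T).card + (S.filter fun t => t ∉ T).card :=
        (Finset.card_filter_add_card_filter_not _).symm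
      have h7 : (S.card : ℝ) = ((S.filter fun t => t ∈ T).card : ℝ) +
        ((S.filter fun t => t ∉ T).card : ℝ) := by exact_mod_cast h6
      rw [h7]
      have hN0 : (0 : ℝ) ≤ N := Nat.cast_nonneg _
      nlinarith
  · intro ι _ f hf
    obtain ⟨L, q, B, hE⟩ : ∃ L q B, Err f η u L q B := by
      rcases hf with hf | ⟨hX, hf⟩
      · exact err_pinched f hf s η hs hη hA hu
      · refine err_inj f hX ?_ s η hs hη hA u
        rcases hf with hf | ⟨hf, hc⟩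
        · exact hf
        · exact amplified_of_comm f ⟨_, hA⟩ hf hc
    obtain ⟨C₂, hC₂, h2⟩ := point_all hE hs hη hA hu hb (D2 := ψ.e + 1) (by linarith)
    have hgood : ∀ t : Fin ψ.n → ℤ, t ∉ T → C₁ + C₂ ≤ ht t → ∀ g : List ι,
        (dg f A g * ht t ≤ C₂ * u ((word f g).pt (ψ.pt t)) ∧
          u ((word f g).pt (ψ.pt t)) ≤ C₂ * (dg f A g * ht t)) ∧
        ∀ d : ℝ, IsDynamicalDegree (word f g).toMorphism A d →
          IsArithmeticDegree (word f g).toMorphism u (ψ.pt t) d := by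
      intro t htT hC
      obtain ⟨h3, h4⟩ := hnot t htT
      obtain ⟨h5, h6⟩ := hlarge t h3 h4 (by linarith)
      exact h2 (ψ.pt t) (ht t) (by linarith) h5 h6
    refine ⟨C₁ + C₂, by positivity, fun t htT hC g => ?_, ?_⟩
    · obtain ⟨⟨h3, h4⟩, h5⟩ := hgood t htT hC g
      refine ⟨?_, h5⟩
      have hh0 : 0 < ht t := by linarith
      change dg f A g * ht t ≤ _ ∧ _ ≤ _ * (dg f A g * ht t)
      obtain ⟨x, hx⟩ : ∃ x, x = dg f A g * ht t := ⟨_, rfl⟩
      obtain ⟨y, hy⟩ : ∃ y, y = u ((word f g).pt (ψ.pt t)) := ⟨_, rfl⟩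
      rw [← hx, ← hy] at h3 h4 ⊢
      have hx0 : 0 ≤ x := by
        rw [hx]
        refine mul_nonneg ?_ hh0.le
        have hn' : (word f g).ns (X.cls A) ∈ X.Nef := (word f g).nef _ (interior_subset hA)
        unfold dg
        rcases eq_or_ne ((word f g).ns (X.cls A)) 0 with h0 | h0
        · rw [h0, map_zero]
        · exact (deg_pos' X hA _ hn' h0).le
      have hy0 : 0 ≤ y := nonneg_of_mul_nonneg_right (hx0.trans h3) hC₂
      exact ⟨h3.trans (mul_le_mul_of_nonneg_right (by linarith) hy0),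
        h4.trans (mul_le_mul_of_nonneg_right (by linarith) hx0)⟩
    · refine (finite_ht (C₁ + C₂)).subset ?_
      rintro t ⟨h1, h3, g, d, h4, h5⟩
      refine ⟨h1, ?_⟩
      by_contra hlt
      exact h5 ((hgood t h3 (not_le.1 hlt).le g).2 d h4)

end Pool.Agent.K6.H12.UR
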