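import Mathlib
import Pool.Agent.K6.H12.UR.Final
import Pool.Agent.Q8.KS.Share2

/-!
Families of endomorphisms over projective space: the limit formula for the canonical heights and the
arithmetic degrees for 100% of the parameters.
-/

set_option autoImplicit false

open Filter Topology

namespace Pool.Agent.K6.H12.UR

open Pool.Agent.Q8.KS Pool.Agent.K6.H12.KS

/-- A family of projective varieties `X_t` over `ℚ` with endomorphisms `f_t`, classes `D_t` in
`Pic(X_t) ⊗ ℝ` with `f_t^* D_t = d D_t`, and points `x_t`, where `t` is in the open subset `R ≠ 0` of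
the projective space `ℙ^(n-1)`. It is the family of the fibres of a projective variety
`𝒳 ⊆ ℙ^(M-1)` over `ℙ^(n-1)`; on `𝒳` there are the classes `𝒜 = O(1)` and `𝒟` with the restrictions
`A_t` and `D_t` to the fibres, and the point `f_t^k(x_t)` depends on `t` by a rational map
`x_k = (F_(k,1) : ⋯ : F_(k,M))` from `ℙ^(n-1)` to `𝒳`. -/
structure Family (G : Type) [Group G] where
  /-- the number of the homogeneous coordinates of the parameter space -/
  n : ℕ
  two_le : 2 ≤ n
  /-- the family is defined for the parameters `t` with `R(t) ≠ 0` -/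
  R : MvPolynomial (Fin n) ℤ
  R_ne : R ≠ 0
  /-- the fibres -/
  X : (Fin n → ℤ) → Variety G
  /-- the endomorphisms of the fibres -/
  f : ∀ t, Morphism (X t) (X t)
  /-- the restriction of `O(1)` to the fibres, and its height -/
  A : ∀ t, (X t).Pic
  hA : ∀ t, (X t).Pt → ℝ
  ample : ∀ t, MvPolynomial.eval t R ≠ 0 → (X t).IsAmple (A t)
  isHeight_A : ∀ t, MvPolynomial.eval t R ≠ 0 → (X t).IsHeight (A t) (hA t)
  /-- the eigenclass and its height -/
  D : ∀ t, (X t).Pic
  hD : ∀ t, (X t).Pt → ℝ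
  isHeight_D : ∀ t, MvPolynomial.eval t R ≠ 0 → (X t).IsHeight (D t) (hD t)
  /-- the eigenvalue -/
  d : ℝ
  one_lt : 1 < d
  eigen : ∀ t, MvPolynomial.eval t R ≠ 0 → (f t).pic (D t) = d • D t
  /-- functoriality of heights in the family, with an error which is at most a constant times the
  height of the parameter -/
  functorial : ∃ c : ℝ, ∀ t, MvPolynomial.eval t R ≠ 0 → ∀ x : (X t).Pt,
    |hD t ((f t).pt x) - d * hD t x| ≤ c * (1 + ht t)
  /-- the points -/
  pt : ∀ t, (X t).Pt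
  /-- the rational maps `x_k` from the parameter space to `𝒳` -/
  M : ℕ
  F : ℕ → Fin M → MvPolynomial (Fin n) ℤ
  e : ℕ → ℕ
  e_pos : ∀ k, 0 < e k
  hom : ∀ k i, (F k i).IsHomogeneous (e k)
  coprime : ∀ k, Coprime (F k)
  /-- the height of `f_t^k(x_t)` is the height of `F_k(t)` -/
  height_A : ∀ k, ∃ c : ℝ, ∀ t, MvPolynomial.eval t R ≠ 0 →
    (fun i => MvPolynomial.eval t (F k i)) ≠ 0 →
      |hA t ((f t).pt^[k] (pt t)) - ht (fun i => MvPolynomial.eval t (F k i))| ≤ c
  /-- the degree of the class `x_k^* 𝒟` on `ℙ^(n-1)` -/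
  b : ℕ → ℝ
  /-- geometric functoriality -/
  geometric : ∃ c : ℝ, ∀ k, |b (k + 1) - d * b k| ≤ c
  /-- a number `C` such that the classes `C 𝒜 + 𝒟` and `C 𝒜 - 𝒟` are nef on `𝒳` -/
  C : ℝ
  C_pos : 0 < C
  /-- the heights of `x_k(t)` for these nef classes are at most the degrees times the height
  of `t` -/
  height_nef : ∀ k, ∃ c : ℝ, ∀ t, MvPolynomial.eval t R ≠ 0 →
    (fun i => MvPolynomial.eval t (F k i)) ≠ 0 →
      C * hA t ((f t).pt^[k] (pt t)) + hD t ((f t).pt^[k] (pt t)) ≤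
        (C * e k + b k) * ht t + c ∧
      C * hA t ((f t).pt^[k] (pt t)) - hD t ((f t).pt^[k] (pt t)) ≤
        (C * e k - b k) * ht t + c

lemma ht_nonneg {n : ℕ} (t : Fin n → ℤ) : 0 ≤ ht t := by
  rcases eq_or_ne t 0 with rfl | h0
  · rw [ht_eq]
    have h1 : gc (0 : Fin n → ℤ) = 0 := by
      unfold gc
      rw [Finset.gcd_eq_zero_iff]
      intro i _
      rfl
    rw [h1]
    simp
  · rw [ht_eq]
    refine Real.log_nonneg ?_
    have h1 := gc_pos h0
    rw [one_le_div (by exact_mod_cast h1)]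
    obtain ⟨i, hi⟩ := Function.ne_iff.1 h0
    have h2 : 0 < (t i).natAbs := Int.natAbs_pos.2 hi
    have h3 : gc t ≤ (t i).natAbs := Nat.le_of_dvd h2 (gc_dvd t i)
    exact_mod_cast h3.trans (le_mx t i)

/-- A sequence which is almost multiplied by `d` in each step. -/
lemma tele {a : ℕ → ℝ} {d c : ℝ} (hd : 1 < d) (h : ∀ k, |a (k + 1) - d * a k| ≤ c) :
    ∃ y, Tendsto (fun k => a k / d ^ k) atTop (𝓝 y) ∧
      ∀ k, |y * d ^ k - a k| ≤ c / (d - 1) := by
  have hd0 : 0 < d := by linarith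
  have hd1 : 0 < d - 1 := by linarith
  have hc : 0 ≤ c := le_trans (abs_nonneg _) (h 0)
  -- the bound for finitely many steps
  have h1 : ∀ k m, |a (k + m) - d ^ m * a k| ≤ c * (d ^ m - 1) / (d - 1) := by
    intro k m
    induction m with
    | zero => simp
    | succ m ih =>
      have h2 := h (k + m)
      have h3 : a (k + (m + 1)) - d ^ (m + 1) * a k =
          (a (k + m + 1) - d * a (k + m)) + d * (a (k + m) - d ^ m * a k) := by
        rw [← add_assoc]
        ring
      rw [h3]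
      refine (abs_add_le _ _).trans ?_
      rw [abs_mul, abs_of_pos hd0]
      have h4 : d * |a (k + m) - d ^ m * a k| ≤ d * (c * (d ^ m - 1) / (d - 1)) :=
        mul_le_mul_of_nonneg_left ih hd0.le
      have h5 : c * (d ^ (m + 1) - 1) / (d - 1) = c + d * (c * (d ^ m - 1) / (d - 1)) := by
        field_simp
        ring
      rw [h5]
      linarith
  have h2 : ∀ k m, |a (k + m) / d ^ (k + m) - a k / d ^ k| ≤ c / (d - 1) * (1 / d) ^ k := by
    intro k m
    have h3 : a (k + m) / d ^ (k + m) - a k / d ^ k =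
        (a (k + m) - d ^ m * a k) / d ^ (k + m) := by
      rw [pow_add]
      field_simp
    rw [h3, abs_div, abs_of_pos (pow_pos hd0 _), div_le_iff₀ (pow_pos hd0 _)]
    refine (h1 k m).trans ?_
    have h4 : c / (d - 1) * (1 / d) ^ k * d ^ (k + m) = c * d ^ m / (d - 1) := by
      rw [pow_add, one_div, inv_pow]
      field_simp
    rw [h4]
    have h5 : c * (d ^ m - 1) ≤ c * d ^ m := mul_le_mul_of_nonneg_left (by linarith) hc
    exact div_le_div_of_nonneg_right h5 hd1.le
  have hlim : Tendsto (fun k : ℕ => c / (d - 1) * (1 / d) ^ k) atTop (𝓝 0) := by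
    have h3 : Tendsto (fun k : ℕ => (1 / d) ^ k) atTop (𝓝 0) :=
      tendsto_pow_atTop_nhds_zero_of_lt_one (by positivity) ((div_lt_one hd0).2 hd)
    have := h3.const_mul (c / (d - 1))
    rwa [mul_zero] at this
  have hcau : CauchySeq fun k => a k / d ^ k := by
    refine cauchySeq_of_le_tendsto_0' (fun k => c / (d - 1) * (1 / d) ^ k) (fun n m hnm => ?_) hlim
    obtain ⟨j, rfl⟩ := Nat.exists_eq_add_of_le hnm
    rw [dist_comm, Real.dist_eq]
    exact h2 n j
  obtain ⟨y, hy⟩ := cauchySeq_tendsto_of_complete hcau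
  refine ⟨y, hy, fun k => ?_⟩
  have h3 : |y - a k / d ^ k| ≤ c / (d - 1) * (1 / d) ^ k := by
    have h4 : Tendsto (fun m => |a (k + m) / d ^ (k + m) - a k / d ^ k|) atTop
        (𝓝 |y - a k / d ^ k|) := by
      have h5 : Tendsto (fun m => k + m) atTop atTop := tendsto_atTop_mono (fun m => Nat.le_add_left m k) tendsto_id
      exact ((hy.comp h5).sub_const _).abs
    exact le_of_tendsto' h4 fun m => h2 k m
  have h4 : y * d ^ k - a k = (y - a k / d ^ k) * d ^ k := by
    field_simp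
  rw [h4, abs_mul, abs_of_pos (pow_pos hd0 _)]
  calc |y - a k / d ^ k| * d ^ k ≤ c / (d - 1) * (1 / d) ^ k * d ^ k :=
        mul_le_mul_of_nonneg_right h3 (pow_pos hd0 _).le
    _ = c / (d - 1) := by
        rw [one_div, inv_pow]
        field_simp

/-- The number of points with a loss of height. -/
theorem count_gen (hNT : S_NT) {n e M : ℕ} (hn : 1 ≤ n) (he : 0 < e)
    {F : Fin M → MvPolynomial (Fin n) ℤ} (hom : ∀ i, (F i).IsHomogeneous e) (hcop : Coprime F)
    {P : (Fin n → ℤ) → Prop} {c : ℝ} (hc : 0 < c)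
    (hcb : ∀ t, P t → (fun i => MvPolynomial.eval t (F i)) ≠ 0 →
      ht (fun i => MvPolynomial.eval t (F i)) ≤ e * ht t + c) {κ : ℝ} (hκ : 0 < κ) :
    ∃ δ C : ℝ, 0 < δ ∧ δ ≤ 1 ∧ 0 < C ∧ ∀ B : ℕ, 1 ≤ B → ∀ S : Finset (Fin n → ℤ),
      S ⊆ box n B → (∀ t ∈ S, P t ∧ ((fun i => MvPolynomial.eval t (F i)) = 0 ∨
        κ * ht t < e * ht t - ht (fun i => MvPolynomial.eval t (F i)))) →
        (S.card : ℝ) ≤ C * (B : ℝ) ^ ((n : ℝ) - δ) := by
  have he1 : (1 : ℝ) ≤ e := by exact_mod_cast he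
  obtain ⟨κ₁, hκ₁, hκe, hκκ⟩ : ∃ κ₁ : ℝ, 0 < κ₁ ∧ κ₁ ≤ 1 / 8 ∧ 4 * κ₁ ≤ κ :=
    ⟨min (1 / 8) (κ / 4), lt_min (by norm_num) (by positivity), min_le_left _ _, by
      have := min_le_right (1 / 8) (κ / 4)
      linarith⟩
  obtain ⟨δ₀, C₀, hδ₀, hC₀, hcount⟩ := hNT n e M hn he F hom hcop κ₁ hκ₁
  obtain ⟨B₀, hB₀⟩ := exists_nat_ge (Real.exp (4 * c))
  have hn1 : (1 : ℝ) ≤ n := by exact_mod_cast hn
  refine ⟨min δ₀ 1, C₀ + (box n B₀).card, lt_min hδ₀ one_pos, min_le_right _ _, by positivity,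
    fun B hB S hS hP => ?_⟩
  have hB1 : (1 : ℝ) ≤ B := by exact_mod_cast hB
  have hB0 : (0 : ℝ) < B := by linarith
  have hpow : (1 : ℝ) ≤ (B : ℝ) ^ ((n : ℝ) - min δ₀ 1) :=
    Real.one_le_rpow hB1 (by have := min_le_right δ₀ 1; linarith)
  rcases lt_or_ge B B₀ with hlt | hge
  · have h1 : S ⊆ box n B₀ := by
      intro t ht'
      have h2 := mem_box.1 (hS ht')
      rw [mem_box]
      intro i
      have h3 := h2 i
      have h4 : (B : ℤ) ≤ B₀ := by exact_mod_cast hlt.le
      linarith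
    have h2 : (S.card : ℝ) ≤ (box n B₀).card := by exact_mod_cast Finset.card_le_card h1
    have h3 : (0 : ℝ) ≤ ((box n B₀).card : ℝ) := Nat.cast_nonneg _
    nlinarith
  · have hlogB : 4 * c ≤ Real.log B := by
      rw [Real.le_log_iff_exp_le hB0]
      exact hB₀.trans (by exact_mod_cast hge)
    have h1 := hcount B hB S hS (fun t htS => by
      by_contra hcon
      rw [not_or] at hcon
      obtain ⟨hc1, hc2⟩ := hcon
      push Not at hc1 hc2
      have h3 : (fun i => MvPolynomial.eval t (F i)) ≠ 0 ∧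
          ((e : ℝ) - κ₁ - κ₁) * Real.log B ≤ ht (fun i => MvPolynomial.eval t (F i)) :=
        le_ht hB (x := fun i => MvPolynomial.eval t (F i)) hc1 hc2
      obtain ⟨h4, h5⟩ := h3
      have ht0 : t ≠ 0 := by
        rintro rfl
        apply h4
        funext i
        show MvPolynomial.eval 0 (F i) = 0
        rw [MvPolynomial.eval_zero]
        exact (hom i).coeff_eq_zero (by
          rw [map_zero]
          exact he.ne)
      have h6 := ht_le ht0 (hS htS)
      obtain ⟨hPt, hPt'⟩ := hP t htS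
      have h7 := hcb t hPt h4
      have h8 : 0 ≤ Real.log B := by linarith
      rcases hPt' with h9 | h9
      · exact h4 h9
      · -- `ht t ≥ log B / 2`
        have h10 : Real.log B / 2 ≤ ht t := by
          have e1 : ((e : ℝ) - κ₁ - κ₁) * Real.log B ≤ e * ht t + c := h5.trans h7
          have e2 : (e : ℝ) * (Real.log B / 2) ≤ e * ht t := by nlinarith
          exact le_of_mul_le_mul_left e2 (by linarith)
        nlinarith)
    refine h1.trans ?_
    have h2 : (B : ℝ) ^ ((n : ℝ) - δ₀) ≤ (B : ℝ) ^ ((n : ℝ) - min δ₀ 1) :=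
      Real.rpow_le_rpow_of_exponent_le hB1 (by have := min_le_left δ₀ 1; linarith)
    have h3 : (0 : ℝ) ≤ ((box n B₀).card : ℝ) := Nat.cast_nonneg _
    calc C₀ * (B : ℝ) ^ ((n : ℝ) - δ₀) ≤ C₀ * (B : ℝ) ^ ((n : ℝ) - min δ₀ 1) :=
          mul_le_mul_of_nonneg_left h2 hC₀.le
      _ ≤ _ := mul_le_mul_of_nonneg_right (by linarith) (by linarith)

end Pool.Agent.K6.H12.UR
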