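import Mathlib
import Pool.Agent.K6.H12.UR.Fam

/-!
Families of endomorphisms over projective space: the main theorem.
-/

set_option autoImplicit false

open Filter Topology

namespace Pool.Agent.K6.H12.UR

open Pool.Agent.Q8.KS Pool.Agent.K6.H12.KS

variable {G : Type} [Group G]

/-- `t` is in the open subset over which the family is defined. -/
def Family.Ok (𝓕 : Family G) (t : Fin 𝓕.n → ℤ) : Prop := MvPolynomial.eval t 𝓕.R ≠ 0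

/-- The point `f_t^k(x_t)`. -/
def Family.orbit (𝓕 : Family G) (t : Fin 𝓕.n → ℤ) (k : ℕ) : (𝓕.X t).Pt :=
  (𝓕.f t).pt^[k] (𝓕.pt t)

/-- `y` is the canonical height of `x_t` for the class `D_t`: the limit of
`h_D(f_t^k(x_t)) / d^k`. -/
def Family.IsCanonical (𝓕 : Family G) (t : Fin 𝓕.n → ℤ) (y : ℝ) : Prop :=
  Tendsto (fun k => 𝓕.hD t (𝓕.orbit t k) / 𝓕.d ^ k) atTop (𝓝 y)

/-- `γ` is the canonical height of the generic point: the limit of the degrees `b_k / d^k`. -/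
def Family.IsGeneric (𝓕 : Family G) (γ : ℝ) : Prop :=
  Tendsto (fun k => 𝓕.b k / 𝓕.d ^ k) atTop (𝓝 γ)

/-- `T` has at most `C B ^ (n - δ)` elements in the box `[-B, B]^n`, for all `B ≥ 1`. -/
def Small (n : ℕ) (δ C : ℝ) (T : Set (Fin n → ℤ)) : Prop :=
  ∀ B : ℕ, 1 ≤ B → (({t : Fin n → ℤ | (∀ i, |t i| ≤ B) ∧ t ∈ T}.ncard : ℕ) : ℝ) ≤
    C * (B : ℝ) ^ ((n : ℝ) - δ)

/-- **The limit formula.** -/
theorem Family.limit (hNT : S_NT) (hSZ : S_SZ) (𝓕 : Family G) :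
    ∃ γ : ℝ, 𝓕.IsGeneric γ ∧ ∀ κ : ℝ, 0 < κ →
      ∃ (δ C : ℝ) (T : Set (Fin 𝓕.n → ℤ)), 0 < δ ∧ δ ≤ 1 ∧ 0 < C ∧ Small 𝓕.n δ C T ∧
        ∀ t, t ∉ T → 𝓕.Ok t ∧ ∃ y, 𝓕.IsCanonical t y ∧
          |y - γ * ht t| ≤ κ * ht t + C ∧
          ∀ k, |y * 𝓕.d ^ k - 𝓕.hD t (𝓕.orbit t k)| ≤ C * (1 + ht t) := by
  classical
  have hd := 𝓕.one_lt
  have hd0 : 0 < 𝓕.d := by linarith
  have hd1 : 0 < 𝓕.d - 1 := by linarith
  obtain ⟨cg, hcg⟩ := 𝓕.geometric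
  obtain ⟨cf, hcf⟩ := 𝓕.functorial
  obtain ⟨γ, hγ, hγb⟩ := tele hd hcg
  refine ⟨γ, hγ, fun κ hκ => ?_⟩
  have hn : 1 ≤ 𝓕.n := by have := 𝓕.two_le; omega
  have hn1 : (1 : ℝ) ≤ 𝓕.n := by exact_mod_cast hn
  -- the number of steps
  obtain ⟨E, hE⟩ : ∃ E, E = (|cf| + |cg|) / (𝓕.d - 1) := ⟨_, rfl⟩
  have hE0 : 0 ≤ E := by rw [hE]; positivity
  obtain ⟨k, hk⟩ := pow_unbounded_of_one_lt (2 * E / κ) hd
  have hdk : 0 < 𝓕.d ^ k := pow_pos hd0 k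
  have hEk : E ≤ κ / 2 * 𝓕.d ^ k := by
    rw [div_lt_iff₀ hκ] at hk
    linarith
  -- the constants
  obtain ⟨cA, hcA⟩ := 𝓕.height_A k
  obtain ⟨cN, hcN⟩ := 𝓕.height_nef k
  obtain ⟨e, he⟩ : ∃ e : ℕ, e = 𝓕.e k := ⟨_, rfl⟩
  have he0 : 0 < e := by rw [he]; exact 𝓕.e_pos k
  have hC := 𝓕.C_pos
  obtain ⟨val, hval⟩ : ∃ val : (Fin 𝓕.n → ℤ) → Fin 𝓕.M → ℤ,
    val = fun t i => MvPolynomial.eval t (𝓕.F k i) := ⟨_, rfl⟩
  obtain ⟨c₁, hc₁⟩ : ∃ c₁, c₁ = |cN| / 𝓕.C + |cA| + 1 := ⟨_, rfl⟩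
  have hc₁0 : 0 < c₁ := by rw [hc₁]; positivity
  have hup : ∀ t, 𝓕.Ok t → val t ≠ 0 → ht (val t) ≤ e * ht t + c₁ := by
    intro t h1 h2
    rw [hval] at h2
    obtain ⟨h3, h4⟩ := hcN t h1 h2
    have h5 := (abs_le.1 (hcA t h1 h2)).1
    have h6 : 2 * 𝓕.C * 𝓕.hA t ((𝓕.f t).pt^[k] (𝓕.pt t)) ≤ 2 * 𝓕.C * (e * ht t + |cN| / 𝓕.C) := by
      have h7 : 2 * 𝓕.C * (e * ht t + |cN| / 𝓕.C) = 2 * (𝓕.C * e * ht t) + 2 * |cN| := by
        field_simp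
      have h8 := le_abs_self cN
      rw [h7, he]
      linarith
    have h7 : 𝓕.hA t ((𝓕.f t).pt^[k] (𝓕.pt t)) ≤ e * ht t + |cN| / 𝓕.C :=
      le_of_mul_le_mul_left h6 (by positivity)
    have h8 := le_abs_self cA
    have h9 : ht (val t) = ht (fun i => MvPolynomial.eval t (𝓕.F k i)) := by rw [hval]
    rw [h9, hc₁]
    linarith
  obtain ⟨κ₁, hκ₁, hκκ⟩ : ∃ κ₁ : ℝ, 0 < κ₁ ∧ 𝓕.C * κ₁ = κ / 2 * 𝓕.d ^ k :=
    ⟨κ / 2 * 𝓕.d ^ k / 𝓕.C, by positivity, by field_simp⟩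
  obtain ⟨δ, C₁, hδ, hδ1, hC₁, hcount⟩ := count_gen hNT hn he0
    (F := 𝓕.F k) (by rw [he]; exact 𝓕.hom k) (𝓕.coprime k) (P := 𝓕.Ok) hc₁0
    (fun t h1 h2 => by
      have := hup t h1 (by rw [hval]; exact h2)
      rwa [hval] at this) hκ₁
  obtain ⟨C₂, hC₂⟩ := hSZ 𝓕.n hn 𝓕.R 𝓕.R_ne
  obtain ⟨T, hT⟩ : ∃ T : Set (Fin 𝓕.n → ℤ), T = {t | ¬ 𝓕.Ok t ∨ (𝓕.Ok t ∧ (val t = 0 ∨
    κ₁ * ht t < e * ht t - ht (val t)))} := ⟨_, rfl⟩
  obtain ⟨C₃, hC₃⟩ : ∃ C₃, C₃ = (𝓕.C * |cA| + |cN| + E) / 𝓕.d ^ k := ⟨_, rfl⟩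
  have hC₃0 : 0 ≤ C₃ := by rw [hC₃]; positivity
  have hC₂0 : (0 : ℝ) ≤ C₂ := Nat.cast_nonneg _
  obtain ⟨C₄, hC₄⟩ : ∃ C₄, C₄ = |cf| / (𝓕.d - 1) := ⟨_, rfl⟩
  have hC₄0 : 0 ≤ C₄ := by rw [hC₄]; positivity
  refine ⟨δ, C₁ + C₂ + C₃ + C₄, T, hδ, hδ1, by positivity, ?_, ?_⟩
  · intro B hB
    have hB1 : (1 : ℝ) ≤ B := by exact_mod_cast hB
    have hB0 : (0 : ℝ) < B := by linarith
    refine ncard_le_of_box fun S hS hP => ?_
    have h1 := hcount B hB (S.filter fun t => 𝓕.Ok t) ((Finset.filter_subset _ _).trans hS)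
      fun t htS => by
        obtain ⟨h2, h3⟩ := Finset.mem_filter.1 htS
        have h4 := hP t h2
        rw [hT] at h4
        rcases h4 with h4 | h4
        · exact absurd h3 h4
        · rw [hval] at h4
          exact h4
    have h2 : ((S.filter fun t => ¬ 𝓕.Ok t).card : ℝ) ≤ C₂ * (B : ℝ) ^ ((𝓕.n : ℝ) - 1) := by
      have h3 : (S.filter fun t => ¬ 𝓕.Ok t) ⊆
          (box 𝓕.n B).filter fun a => MvPolynomial.eval a 𝓕.R = 0 := by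
        intro t htS
        obtain ⟨h4, h5⟩ := Finset.mem_filter.1 htS
        exact Finset.mem_filter.2 ⟨hS h4, not_not.1 h5⟩
      have h4 := (Finset.card_le_card h3).trans (hC₂ B hB)
      have h5 : ((S.filter fun t => ¬ 𝓕.Ok t).card : ℝ) ≤ C₂ * (B : ℝ) ^ (𝓕.n - 1) := by
        exact_mod_cast h4
      rw [← Real.rpow_natCast, Nat.cast_sub hn, Nat.cast_one] at h5
      exact h5
    have h3 : (B : ℝ) ^ ((𝓕.n : ℝ) - 1) ≤ (B : ℝ) ^ ((𝓕.n : ℝ) - δ) :=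
      Real.rpow_le_rpow_of_exponent_le hB1 (by linarith)
    have h4 : S.card = (S.filter fun t => 𝓕.Ok t).card + (S.filter fun t => ¬ 𝓕.Ok t).card :=
      (Finset.card_filter_add_card_filter_not _).symm
    have h5 : (S.card : ℝ) = ((S.filter fun t => 𝓕.Ok t).card : ℝ) +
      ((S.filter fun t => ¬ 𝓕.Ok t).card : ℝ) := by exact_mod_cast h4
    have h6 : (C₂ : ℝ) * (B : ℝ) ^ ((𝓕.n : ℝ) - 1) ≤ C₂ * (B : ℝ) ^ ((𝓕.n : ℝ) - δ) :=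
      mul_le_mul_of_nonneg_left h3 hC₂0
    have h7 : 0 ≤ C₃ * (B : ℝ) ^ ((𝓕.n : ℝ) - δ) := by positivity
    have h8 : 0 ≤ C₄ * (B : ℝ) ^ ((𝓕.n : ℝ) - δ) := by positivity
    rw [h5]
    linarith
  · intro t htT
    rw [hT, Set.mem_ofPred_eq, not_or, not_not, not_and, not_or, not_lt] at htT
    obtain ⟨hok, h1⟩ := htT
    obtain ⟨h2, h3⟩ := h1 hok
    have hh := ht_nonneg t
    refine ⟨hok, ?_⟩
    have hstep : ∀ j, |𝓕.hD t (𝓕.orbit t (j + 1)) - 𝓕.d * 𝓕.hD t (𝓕.orbit t j)| ≤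
        |cf| * (1 + ht t) := by
      intro j
      have h4 := hcf t hok (𝓕.orbit t j)
      have h5 : (𝓕.f t).pt (𝓕.orbit t j) = 𝓕.orbit t (j + 1) := by
        unfold Family.orbit
        rw [Function.iterate_succ_apply']
      rw [h5] at h4
      exact h4.trans (mul_le_mul_of_nonneg_right (le_abs_self cf) (by linarith))
    obtain ⟨y, hy, hyb⟩ := tele (a := fun j => 𝓕.hD t (𝓕.orbit t j)) hd hstep
    refine ⟨y, hy, ?_, fun j => (hyb j).trans ?_⟩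
    swap
    · have h4 : |cf| * (1 + ht t) / (𝓕.d - 1) = C₄ * (1 + ht t) := by
        rw [hC₄]
        ring
      rw [h4]
      exact mul_le_mul_of_nonneg_right (by linarith) (by linarith)
    -- the comparison after `k` steps
    have h2' : (fun i => MvPolynomial.eval t (𝓕.F k i)) ≠ 0 := by
      rw [hval] at h2
      exact h2
    obtain ⟨h4, h5⟩ := hcN t hok h2'
    have h6 := (abs_le.1 (hcA t hok h2')).1
    have h7 : ht (val t) = ht (fun i => MvPolynomial.eval t (𝓕.F k i)) := by rw [hval]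
    rw [← h7] at h6
    have e1 := le_abs_self cN
    have e2 := le_abs_self cA
    have h8 : (e - κ₁) * ht t - |cA| ≤ 𝓕.hA t ((𝓕.f t).pt^[k] (𝓕.pt t)) := by linarith
    have h9 : 𝓕.C * ((e - κ₁) * ht t - |cA|) ≤ 𝓕.C * 𝓕.hA t ((𝓕.f t).pt^[k] (𝓕.pt t)) :=
      mul_le_mul_of_nonneg_left h8 hC.le
    have h10 : 𝓕.C * ((e - κ₁) * ht t - |cA|) = 𝓕.C * e * ht t - κ / 2 * 𝓕.d ^ k * ht t -
        𝓕.C * |cA| := by
      rw [← hκκ]
      ring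
    rw [h10] at h9
    have h11 : |𝓕.hD t (𝓕.orbit t k) - 𝓕.b k * ht t| ≤
        κ / 2 * 𝓕.d ^ k * ht t + 𝓕.C * |cA| + |cN| := by
      unfold Family.orbit
      rw [← he] at h4 h5
      rw [abs_le]
      constructor
      · linarith
      · linarith
    have h12 := hyb k
    have h13 := hγb k
    have h14 : |𝓕.b k * ht t - γ * 𝓕.d ^ k * ht t| ≤ |cg| / (𝓕.d - 1) * ht t := by
      have : 𝓕.b k * ht t - γ * 𝓕.d ^ k * ht t = -(γ * 𝓕.d ^ k - 𝓕.b k) * ht t := by ring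
      rw [this, abs_mul, abs_neg, abs_of_nonneg hh]
      refine mul_le_mul_of_nonneg_right (h13.trans ?_) hh
      exact div_le_div_of_nonneg_right (le_abs_self cg) hd1.le
    have h15 : |y * 𝓕.d ^ k - γ * 𝓕.d ^ k * ht t| ≤
        |cf| * (1 + ht t) / (𝓕.d - 1) + (κ / 2 * 𝓕.d ^ k * ht t + 𝓕.C * |cA| + |cN|) +
          |cg| / (𝓕.d - 1) * ht t := by
      have : y * 𝓕.d ^ k - γ * 𝓕.d ^ k * ht t = (y * 𝓕.d ^ k - 𝓕.hD t (𝓕.orbit t k)) +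
          (𝓕.hD t (𝓕.orbit t k) - 𝓕.b k * ht t) + (𝓕.b k * ht t - γ * 𝓕.d ^ k * ht t) := by ring
      rw [this]
      refine (abs_add_le _ _).trans (add_le_add ((abs_add_le _ _).trans (add_le_add h12 h11)) h14)
    have h16 : |cf| * (1 + ht t) / (𝓕.d - 1) + |cg| / (𝓕.d - 1) * ht t ≤ E * ht t + E := by
      have : |cf| * (1 + ht t) / (𝓕.d - 1) + |cg| / (𝓕.d - 1) * ht t =
          E * ht t + |cf| / (𝓕.d - 1) := by
        rw [hE]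
        field_simp
        ring
      rw [this]
      have h17 : |cf| / (𝓕.d - 1) ≤ E := by
        rw [hE]
        refine div_le_div_of_nonneg_right ?_ hd1.le
        linarith [abs_nonneg cg]
      linarith
    have h17 : E * ht t ≤ κ / 2 * 𝓕.d ^ k * ht t := mul_le_mul_of_nonneg_right hEk hh
    have h18 : |y - γ * ht t| * 𝓕.d ^ k ≤ (κ * ht t + C₃) * 𝓕.d ^ k := by
      have h19 : |y - γ * ht t| * 𝓕.d ^ k = |y * 𝓕.d ^ k - γ * 𝓕.d ^ k * ht t| := by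
        rw [← abs_of_pos hdk, ← abs_mul, abs_of_pos hdk]
        congr 1
        ring
      have h20 : C₃ * 𝓕.d ^ k = 𝓕.C * |cA| + |cN| + E := by
        rw [hC₃]
        field_simp
      rw [h19, add_mul, h20]
      linarith
    have h19 := le_of_mul_le_mul_right h18 hdk
    linarith

/-- The arithmetic degree at a point with nonzero canonical height. -/
theorem Family.arith (𝓕 : Family G) {t : Fin 𝓕.n → ℤ} (hok : 𝓕.Ok t)
    (hdyn : IsDynamicalDegree (𝓕.f t) (𝓕.A t) 𝓕.d) {y C' : ℝ} (hy : y ≠ 0)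
    (h : ∀ k, |y * 𝓕.d ^ k - 𝓕.hD t (𝓕.orbit t k)| ≤ C') :
    IsArithmeticDegree (𝓕.f t) (𝓕.hA t) (𝓕.pt t) 𝓕.d := by
  have hd := 𝓕.one_lt
  have hd0 : 0 < 𝓕.d := by linarith
  have hA := 𝓕.ample t hok
  have hu := 𝓕.isHeight_A t hok
  obtain ⟨s, η, hs, hη, -⟩ := exists_lift (𝓕.X t)
  obtain ⟨ℓ, c0, B, hc0, hB, hlow, hup, hmain⟩ := along (𝓕.X t) s η hs hη (𝓕.f t) hA hu hd hdyn
  obtain ⟨C, hC⟩ := height_bound (𝓕.X t) hA hu (𝓕.isHeight_D t hok)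
  have hC'0 : 0 ≤ C' := (abs_nonneg _).trans (h 0)
  have hy0 : 0 < |y| := abs_pos.2 hy
  obtain ⟨Q, hQ⟩ : ∃ Q, Q = |C| + C' + 1 := ⟨_, rfl⟩
  have hQ0 : 0 < Q := by rw [hQ]; positivity
  obtain ⟨m, hm⟩ : ∃ m, m = max 1 (𝓕.hA t (𝓕.pt t)) := ⟨_, rfl⟩
  have hm1 : 1 ≤ m := by rw [hm]; exact le_max_left _ _
  have hdeg : ∀ k, gr ℓ 𝓕.d k ≤
      1 / c0 * (𝓕.X t).deg ((𝓕.X t).cls (𝓕.A t)) (((𝓕.f t).ns ^ k) ((𝓕.X t).cls (𝓕.A t))) := by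
    intro k
    rw [one_div, ← div_eq_inv_mul, le_div_iff₀ hc0]
    linarith [hlow k]
  unfold IsArithmeticDegree
  refine rate_between hd0 (x := |y| / Q) (y := (B * m + 1) / c0) (by positivity) (by positivity)
    (fun k => ?_) hdyn (fun k => ?_) (fun k => ?_)
  · have h1 := hlow k
    have h2 := gr_pos ℓ hd0 k
    exact le_trans (by positivity) h1
  · have h1 := h k
    have h2 := hC (𝓕.orbit t k)
    obtain ⟨w, hw⟩ : ∃ w, w = max 1 (𝓕.hA t ((𝓕.f t).pt^[k] (𝓕.pt t))) := ⟨_, rfl⟩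
    have hw1 : 1 ≤ w := by rw [hw]; exact le_max_left _ _
    have h3 : |𝓕.hD t (𝓕.orbit t k)| ≤ |C| * w := by
      rw [hw]
      exact h2.trans (mul_le_mul_of_nonneg_right (le_abs_self C)
        (le_trans zero_le_one (le_max_left _ _)))
    have h4 : |y| * 𝓕.d ^ k ≤ C' + |C| * w := by
      have h5 : |y| * 𝓕.d ^ k = |y * 𝓕.d ^ k| := by
        rw [abs_mul, abs_of_pos (pow_pos hd0 k)]
      have h6 : y * 𝓕.d ^ k = (y * 𝓕.d ^ k - 𝓕.hD t (𝓕.orbit t k)) + 𝓕.hD t (𝓕.orbit t k) := by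
        ring
      rw [h5, h6]
      exact (abs_add_le _ _).trans (add_le_add h1 h3)
    rw [← hw, div_mul_eq_mul_div, div_le_iff₀ hQ0, hQ]
    nlinarith
  · have h1 := (hmain k (𝓕.pt t)).1
    have h2 := hdeg k
    have h3 := gr_one_le ℓ hd k
    obtain ⟨g, hg⟩ : ∃ g, g = gr ℓ 𝓕.d k := ⟨_, rfl⟩
    rw [← hg] at h1 h2 h3
    rw [← hm] at h1
    have h4 : B * g * m ≤ B * m * g + g := by nlinarith
    have h5 : max 1 (𝓕.hA t ((𝓕.f t).pt^[k] (𝓕.pt t))) ≤ (B * m + 1) * g := by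
      refine max_le ?_ ?_
      · have : 0 ≤ B * m * g := by positivity
        linarith
      · linarith
    refine h5.trans ?_
    have h6 : (B * m + 1) * g ≤ (B * m + 1) * (1 / c0 *
        (𝓕.X t).deg ((𝓕.X t).cls (𝓕.A t)) (((𝓕.f t).ns ^ k) ((𝓕.X t).cls (𝓕.A t)))) :=
      mul_le_mul_of_nonneg_left h2 (by positivity)
    refine h6.trans (le_of_eq ?_)
    ring

/-- **The arithmetic degrees.** -/
theorem Family.ksc (hNT : S_NT) (hSZ : S_SZ) (𝓕 : Family G) {γ : ℝ} (hγ : 𝓕.IsGeneric γ)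
    (hγ0 : γ ≠ 0) (hdyn : ∀ t, 𝓕.Ok t → IsDynamicalDegree (𝓕.f t) (𝓕.A t) 𝓕.d) :
    ∃ (δ C : ℝ) (T : Set (Fin 𝓕.n → ℤ)), 0 < δ ∧ 0 < C ∧ Small 𝓕.n δ C T ∧
      (∀ t, t ∉ T → 𝓕.Ok t) ∧
      (∀ t, t ∉ T → C ≤ ht t → IsArithmeticDegree (𝓕.f t) (𝓕.hA t) (𝓕.pt t) 𝓕.d) ∧
      {t : Fin 𝓕.n → ℤ | gc t = 1 ∧ t ∉ T ∧
        ¬ IsArithmeticDegree (𝓕.f t) (𝓕.hA t) (𝓕.pt t) 𝓕.d}.Finite ∧
      Small 𝓕.n δ C {t | gc t = 1 ∧
        (¬ 𝓕.Ok t ∨ ¬ IsArithmeticDegree (𝓕.f t) (𝓕.hA t) (𝓕.pt t) 𝓕.d)} := by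
  classical
  obtain ⟨γ', hγ', hlim⟩ := 𝓕.limit hNT hSZ
  have hγγ : γ' = γ := tendsto_nhds_unique hγ' hγ
  rw [hγγ] at hlim
  have ha : 0 < |γ| := abs_pos.2 hγ0
  obtain ⟨δ, C, T, hδ, hδ1, hC, hT, hgood⟩ := hlim (|γ| / 2) (by positivity)
  have hn1 : (1 : ℝ) ≤ 𝓕.n := by
    have := 𝓕.two_le
    exact_mod_cast (by omega : 1 ≤ 𝓕.n)
  have hok : ∀ t, t ∉ T → 𝓕.Ok t := fun t h => (hgood t h).1
  have hbig : ∀ t, t ∉ T → 2 * C / |γ| < ht t →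
      IsArithmeticDegree (𝓕.f t) (𝓕.hA t) (𝓕.pt t) 𝓕.d := by
    intro t htT hlt
    obtain ⟨h1, y, -, h3, h4⟩ := hgood t htT
    refine 𝓕.arith h1 (hdyn t h1) (y := y) (C' := C * (1 + ht t)) ?_ h4
    rintro rfl
    rw [zero_sub, abs_neg, abs_mul, abs_of_nonneg (ht_nonneg t)] at h3
    rw [div_lt_iff₀ ha] at hlt
    linarith
  obtain ⟨H, hH⟩ : ∃ H, H = 2 * C / |γ| + 1 := ⟨_, rfl⟩
  have hH0 : 0 < H := by rw [hH]; positivity
  have hfin : {t : Fin 𝓕.n → ℤ | gc t = 1 ∧ t ∉ T ∧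
      ¬ IsArithmeticDegree (𝓕.f t) (𝓕.hA t) (𝓕.pt t) 𝓕.d}.Finite := by
    refine (finite_ht H).subset ?_
    rintro t ⟨h1, h3, h4⟩
    refine ⟨h1, ?_⟩
    by_contra hlt
    exact h4 (hbig t h3 (by linarith [not_le.1 hlt]))
  obtain ⟨N, hN⟩ : ∃ N, N = hfin.toFinset.card := ⟨_, rfl⟩
  have hN0 : (0 : ℝ) ≤ N := Nat.cast_nonneg _
  have hrp : ∀ B : ℕ, 1 ≤ B → (1 : ℝ) ≤ (B : ℝ) ^ ((𝓕.n : ℝ) - δ) := fun B hB =>
    Real.one_le_rpow (by exact_mod_cast hB) (by linarith)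
  refine ⟨δ, C + H + N, T, hδ, by positivity, ?_, hok, ?_, hfin, ?_⟩
  · intro B hB
    refine (hT B hB).trans ?_
    have := hrp B hB
    exact mul_le_mul_of_nonneg_right (by linarith) (by linarith)
  · intro t h1 h2
    exact hbig t h1 (by linarith)
  · intro B hB
    have hpow := hrp B hB
    refine ncard_le_of_box fun S hS hP => ?_
    have h3 : ((S.filter fun t => t ∈ T).card : ℝ) ≤ C * (B : ℝ) ^ ((𝓕.n : ℝ) - δ) := by
      refine le_trans ?_ (hT B hB)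
      rw [← Set.ncard_coe_finset]
      have hsub : ((S.filter fun t => t ∈ T : Finset (Fin 𝓕.n → ℤ)) : Set (Fin 𝓕.n → ℤ)) ⊆
          {t | (∀ i, |t i| ≤ B) ∧ t ∈ T} := by
        intro t htS
        obtain ⟨h4, h5⟩ := Finset.mem_filter.1 (Finset.mem_coe.1 htS)
        exact ⟨mem_box.1 (hS h4), h5⟩
      have hfin' : ({t | (∀ i, |t i| ≤ (B : ℤ)) ∧ t ∈ T} : Set (Fin 𝓕.n → ℤ)).Finite :=
        (box 𝓕.n B).finite_toSet.subset fun t ht' => Finset.mem_coe.2 (mem_box.2 ht'.1)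
      exact_mod_cast Set.ncard_le_ncard hsub hfin'
    have h4 : (S.filter fun t => t ∉ T) ⊆ hfin.toFinset := by
      intro t htS
      obtain ⟨h5, h6⟩ := Finset.mem_filter.1 htS
      rw [Set.Finite.mem_toFinset]
      obtain ⟨h7, h8⟩ := hP t h5
      refine ⟨h7, h6, ?_⟩
      rcases h8 with h8 | h8
      · exact absurd (hok t h6) h8
      · exact h8
    have h5 : ((S.filter fun t => t ∉ T).card : ℝ) ≤ N := by
      rw [hN]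
      exact_mod_cast Finset.card_le_card h4
    have h6 : S.card = (S.filter fun t => t ∈ T).card + (S.filter fun t => t ∉ T).card :=
      (Finset.card_filter_add_card_filter_not _).symm
    have h7 : (S.card : ℝ) = ((S.filter fun t => t ∈ T).card : ℝ) +
      ((S.filter fun t => t ∉ T).card : ℝ) := by exact_mod_cast h6
    rw [h7]
    nlinarith

end Pool.Agent.K6.H12.UR
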