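import Pool.Agent.K6.H12.UR.Def

set_option autoImplicit false

namespace Pool.Agent.K6.H12.UR

open Finset in
theorem gc_lagrange (f : Polynomial ℤ) (e : ℕ) (hdeg : f.natDegree ≤ e) (U : Finset ℕ)
    (hU : U.card = e + 1) :
    f.coeff e * ∏ j ∈ U, ∏ k ∈ U.erase j, ((j : ℤ) - k) =
      ∑ j ∈ U, f.eval (j : ℤ) * ∏ i ∈ U.erase j, ∏ k ∈ U.erase i, ((i : ℤ) - k) := by
  classical
  have hinj : Set.InjOn (fun n : ℕ => (n : ℚ)) U := fun a _ b _ h => Nat.cast_injective h
  have hdeg' : (f.map (Int.castRingHom ℚ)).degree < U.card := by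
    rw [hU]
    refine lt_of_le_of_lt (Polynomial.degree_map_le) ?_
    refine lt_of_le_of_lt (Polynomial.degree_le_natDegree) ?_
    exact_mod_cast Nat.lt_succ_of_le hdeg
  have hL := Lagrange.coeff_eq_sum hinj hdeg'
  rw [hU, Nat.add_sub_cancel, Polynomial.coeff_map] at hL
  have hw0 : ∀ j ∈ U, (∏ k ∈ U.erase j, ((j : ℚ) - k)) ≠ 0 := by
    intro j hj
    refine Finset.prod_ne_zero_iff.mpr ?_
    intro k hk
    rw [Finset.mem_erase] at hk
    intro h0
    apply hk.1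
    have : (j : ℚ) = k := by linarith
    exact_mod_cast this.symm
  have hQ : ((f.coeff e : ℤ) : ℚ) * ∏ j ∈ U, ∏ k ∈ U.erase j, ((j : ℚ) - k) =
      ∑ j ∈ U, ((f.eval (j : ℤ) : ℤ) : ℚ) * ∏ i ∈ U.erase j, ∏ k ∈ U.erase i, ((i : ℚ) - k) := by
    have h1 : ((f.coeff e : ℤ) : ℚ) = (Int.castRingHom ℚ) (f.coeff e) := by simp
    rw [h1, hL, Finset.sum_mul]
    refine Finset.sum_congr rfl fun j hj => ?_
    rw [← Finset.mul_prod_erase U _ hj]
    have h2 : Polynomial.eval (j : ℚ) (f.map (Int.castRingHom ℚ)) = ((f.eval (j : ℤ) : ℤ) : ℚ) := by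
      have h3 : (f.map (Int.castRingHom ℚ)).eval ((Int.castRingHom ℚ) (j : ℤ))
          = (Int.castRingHom ℚ) (f.eval (j : ℤ)) := by
        rw [Polynomial.eval_map, Polynomial.eval₂_hom]
      simp
    simp only [h2]
    field_simp [hw0 j hj]
  exact_mod_cast hQ

open Finset in
theorem t_GC : S_GC := by
  intro f e Δ N hdeg hc hΔ d hd S hS
  classical
  have key : ∀ T : Finset ℕ, T ⊆ S → (∀ s ∈ T, ∀ t ∈ T, s / Δ = t / Δ) → T.card ≤ e := by
    intro T hTS hblk
    by_contra hcon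
    push Not at hcon
    obtain ⟨U, hUT, hU⟩ := Finset.exists_subset_card_eq (s := T) (n := e + 1) hcon
    have hlag := gc_lagrange f e hdeg U hU
    have hw0 : ∀ j ∈ U, (∏ k ∈ U.erase j, ((j : ℤ) - k)) ≠ 0 := by
      intro j hj
      refine Finset.prod_ne_zero_iff.mpr ?_
      intro k hk
      rw [Finset.mem_erase] at hk
      intro h0
      apply hk.1
      have : (j : ℤ) = k := by linarith
      exact_mod_cast this.symm
    have hwb : ∀ j ∈ U, |∏ k ∈ U.erase j, ((j : ℤ) - k)| ≤ (Δ : ℤ) ^ e := by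
      intro j hj
      rw [Finset.abs_prod]
      have hcard : (U.erase j).card = e := by rw [Finset.card_erase_of_mem hj, hU]; simp
      have : ∏ k ∈ U.erase j, |((j : ℤ) - k)| ≤ ∏ k ∈ U.erase j, (Δ : ℤ) := by
        refine Finset.prod_le_prod (fun _ _ => abs_nonneg _) ?_
        intro k hk
        have hkU : k ∈ U := Finset.mem_of_mem_erase hk
        have hb := hblk j (hUT hj) k (hUT hkU)
        have h1 := Nat.div_add_mod j Δ
        have h2 := Nat.div_add_mod k Δ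
        have h3 := Nat.mod_lt j hΔ
        have h4 := Nat.mod_lt k hΔ
        rw [hb] at h1
        have h1' : (Δ : ℤ) * ((k / Δ : ℕ) : ℤ) + ((j % Δ : ℕ) : ℤ) = j := by exact_mod_cast h1
        have h2' : (Δ : ℤ) * ((k / Δ : ℕ) : ℤ) + ((k % Δ : ℕ) : ℤ) = k := by exact_mod_cast h2
        rw [abs_le]
        constructor <;> push_cast at * <;> omega
      rwa [Finset.prod_const, hcard] at this
    have hdvd : d ∣ f.coeff e * ∏ j ∈ U, ∏ k ∈ U.erase j, ((j : ℤ) - k) := by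
      rw [hlag]
      refine Finset.dvd_sum fun j hj => ?_
      exact Dvd.dvd.mul_right (hS j (hTS (hUT hj))).2 _
    have hne : f.coeff e * ∏ j ∈ U, ∏ k ∈ U.erase j, ((j : ℤ) - k) ≠ 0 :=
      mul_ne_zero hc (Finset.prod_ne_zero_iff.mpr hw0)
    have hbd : |f.coeff e * ∏ j ∈ U, ∏ k ∈ U.erase j, ((j : ℤ) - k)| ≤
        |f.coeff e| * (Δ : ℤ) ^ (e * (e + 1)) := by
      rw [abs_mul, Finset.abs_prod]
      refine mul_le_mul_of_nonneg_left ?_ (abs_nonneg _)
      calc ∏ j ∈ U, |∏ k ∈ U.erase j, ((j : ℤ) - k)| ≤ ∏ j ∈ U, (Δ : ℤ) ^ e :=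
            Finset.prod_le_prod (fun _ _ => abs_nonneg _) hwb
        _ = (Δ : ℤ) ^ (e * (e + 1)) := by rw [Finset.prod_const, hU, pow_mul]
    have hle : d ≤ |f.coeff e * ∏ j ∈ U, ∏ k ∈ U.erase j, ((j : ℤ) - k)| :=
      Int.le_of_dvd (abs_pos.mpr hne) ((dvd_abs _ _).mpr hdvd)
    exact absurd (lt_of_lt_of_le hd (hle.trans hbd)) (lt_irrefl _)
  have hmap : ∀ s ∈ S, s / Δ ∈ Finset.range (N / Δ + 1) := by
    intro s hs
    rw [Finset.mem_range]
    exact Nat.lt_succ_of_le (Nat.div_le_div_right (hS s hs).1.le)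
  rw [Finset.card_eq_sum_card_fiberwise hmap]
  calc ∑ b ∈ Finset.range (N / Δ + 1), (S.filter fun s => s / Δ = b).card
      ≤ ∑ b ∈ Finset.range (N / Δ + 1), e := by
        refine Finset.sum_le_sum fun b _ => ?_
        refine key _ (Finset.filter_subset _ _) ?_
        intro s hs t ht
        rw [Finset.mem_filter] at hs ht
        rw [hs.2, ht.2]
    _ = e * (N / Δ + 1) := by
        rw [Finset.sum_const, Finset.card_range, smul_eq_mul, mul_comm]

end Pool.Agent.K6.H12.UR
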