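import Pool.Agent.K6.H12.UR.Def

set_option autoImplicit false

/-!
LD (helper53): the restriction of a form to a line.
-/

namespace Pool.Agent.K6.H12.UR

open Polynomial

/-- degree at most `d` and coefficient of `X ^ d` -/
private def Dc (p : Polynomial ℤ) (d : ℕ) (c : ℤ) : Prop := p.natDegree ≤ d ∧ p.coeff d = c

private theorem Dc_mul {p q : Polynomial ℤ} {d e : ℕ} {c b : ℤ} (hp : Dc p d c) (hq : Dc q e b) :
    Dc (p * q) (d + e) (c * b) :=
  ⟨natDegree_mul_le_of_le hp.1 hq.1, by rw [coeff_mul_add_eq_of_natDegree_le hp.1 hq.1, hp.2, hq.2]⟩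

private theorem Dc_pow {p : Polynomial ℤ} {c : ℤ} (hp : Dc p 1 c) (m : ℕ) : Dc (p ^ m) m (c ^ m) := by
  induction m with
  | zero => exact ⟨by simp, by simp⟩
  | succ m ih =>
    rw [pow_succ, pow_succ]
    exact Dc_mul ih hp

private theorem Dc_prod {ι : Type} (s : Finset ι) (p : ι → Polynomial ℤ) (d : ι → ℕ) (c : ι → ℤ)
    (h : ∀ i ∈ s, Dc (p i) (d i) (c i)) : Dc (∏ i ∈ s, p i) (∑ i ∈ s, d i) (∏ i ∈ s, c i) := by
  classical
  induction s using Finset.induction_on with
  | empty => exact ⟨by simp, by simp⟩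
  | insert i s hi ih =>
    rw [Finset.prod_insert hi, Finset.sum_insert hi, Finset.prod_insert hi]
    exact Dc_mul (h i (Finset.mem_insert_self i s))
      (ih fun j hj => h j (Finset.mem_insert_of_mem hj))

theorem t_LD : S_LD := by
  intro n e F hF v a
  let g : Fin n → Polynomial ℤ := fun i => C (a i) + C (v i) * X
  refine ⟨MvPolynomial.aeval g F, fun s => ?_, ?_⟩
  · rw [MvPolynomial.aeval_def, MvPolynomial.eval₂_eq, MvPolynomial.eval_eq, eval_finsetSum]
    refine Finset.sum_congr rfl fun d _ => ?_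
    rw [eval_mul, eval_prod]
    have h1 : Polynomial.eval s ((algebraMap ℤ ℤ[X]) (F.coeff d)) = F.coeff d := eval_C
    rw [h1]
    congr 1
    refine Finset.prod_congr rfl fun i _ => ?_
    rw [eval_pow]
    congr 1
    simp only [g, eval_add, eval_mul, eval_C, eval_X, Pi.add_apply, Pi.smul_apply, smul_eq_mul]
    rw [mul_comm]
  · have hg : ∀ i, Dc (g i) 1 (v i) := by
      intro i
      refine ⟨?_, ?_⟩
      · refine (natDegree_add_le _ _).trans (max_le (by simp) ?_)
        exact (natDegree_C_mul_le _ _).trans natDegree_X_le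
      · simp only [g, coeff_add, coeff_C_succ, coeff_C_mul, coeff_X_one, mul_one, zero_add]
    have h1 : ∀ d ∈ F.support, Dc (C (F.coeff d) * ∏ i ∈ d.support, g i ^ d i) e
        (F.coeff d * ∏ i ∈ d.support, v i ^ d i) := by
      intro d hd
      have h2 : ∑ i ∈ d.support, d i = e := by
        have h3 := hF (MvPolynomial.mem_support_iff.1 hd)
        rw [← h3, Finsupp.weight_apply]
        simp [Finsupp.sum]
      have h3 := Dc_mul (p := C (F.coeff d)) (d := 0) (c := F.coeff d) ⟨by simp, by simp⟩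
        (Dc_prod d.support (fun i => g i ^ d i) (fun i => d i) (fun i => v i ^ d i)
          fun i _ => Dc_pow (hg i) (d i))
      rwa [h2, zero_add] at h3
    have h4 : MvPolynomial.aeval g F =
        ∑ d ∈ F.support, C (F.coeff d) * ∏ i ∈ d.support, g i ^ d i := by
      rw [MvPolynomial.aeval_def, MvPolynomial.eval₂_eq]
      rfl
    rw [h4]
    refine ⟨natDegree_sum_le_of_forall_le _ _ fun d hd => (h1 d hd).1, ?_⟩
    rw [finsetSum_coeff, MvPolynomial.eval_eq]
    exact Finset.sum_congr rfl fun d hd => (h1 d hd).2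

end Pool.Agent.K6.H12.UR
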