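import Mathlib
import Pool.Agent.K6.H12.UR.Def
import Pool.Agent.H353R2.Z2

/-!
Counting on a line.
-/

set_option autoImplicit false

namespace Pool.Agent.K6.H12.UR

theorem line_count (hSM : S_SM) (hGC : S_GC) {f : Polynomial ℤ} {e : ℕ} (he : 0 < e)
    (hdeg : f.natDegree ≤ e) (hc : f.coeff e ≠ 0) {B : ℕ} (hB : 1 ≤ B) {κ ε : ℝ} (hκ : 0 < κ)
    (hκ1 : κ ≤ 1) (hε : ε * (2 * (e * (e + 1))) = κ) (hcB : |(f.coeff e : ℝ)| < (B : ℝ) ^ (κ / 2))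
    {R : ℕ} (hR : R ≠ 0) (S : Finset ℕ) (hS : ∀ s ∈ S, s < B + 1 ∧
      ((∃ D : ℕ, D ∣ R ∧ (D : ℤ) ∣ f.eval (s : ℤ) ∧ (B : ℝ) ^ κ < (D : ℝ)) ∨
        |((f.eval (s : ℤ) : ℤ) : ℝ)| < (B : ℝ) ^ ((e : ℝ) - κ))) :
    (S.card : ℝ) ≤ R.divisors.card * (e * (5 * (B : ℝ) ^ (1 - ε))) +
      e * (3 * (B : ℝ) ^ (1 - κ / e)) := by
  classical
  have hB1 : (1 : ℝ) ≤ B := by exact_mod_cast hB
  have hB0 : (0 : ℝ) < B := by linarith
  have he1 : (1 : ℝ) ≤ e := by exact_mod_cast he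
  have he0 : (0 : ℝ) < e := by linarith
  have hee : (0 : ℝ) < 2 * (e * (e + 1)) := by positivity
  have hε0 : 0 < ε := by
    by_contra h
    have : ε * (2 * (e * (e + 1))) ≤ 0 := mul_nonpos_of_nonpos_of_nonneg (not_lt.1 h) hee.le
    linarith
  have hε1 : ε ≤ 1 := by
    by_contra h
    have h1 : 1 < ε := not_le.1 h
    have h2 : (1 : ℝ) ≤ 2 * (e * (e + 1)) := by nlinarith
    nlinarith
  have hnd : f.natDegree = e := le_antisymm hdeg (Polynomial.le_natDegree_of_ne_zero hc)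
  -- the step
  obtain ⟨Δ, hΔ⟩ : ∃ Δ, Δ = ⌊(B : ℝ) ^ ε⌋₊ := ⟨_, rfl⟩
  have hBε : (1 : ℝ) ≤ (B : ℝ) ^ ε := Real.one_le_rpow hB1 hε0.le
  have hΔ1 : 1 ≤ Δ := by
    rw [hΔ]
    exact Nat.le_floor (by exact_mod_cast hBε)
  have hΔle : (Δ : ℝ) ≤ (B : ℝ) ^ ε := by
    rw [hΔ]
    exact Nat.floor_le (by linarith)
  have hΔge : (B : ℝ) ^ ε / 2 ≤ Δ := by
    have h1 : (B : ℝ) ^ ε < Δ + 1 := by
      rw [hΔ]
      exact Nat.lt_floor_add_one _
    have h2 : (1 : ℝ) ≤ Δ := by exact_mod_cast hΔ1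
    linarith
  have hΔ0 : (0 : ℝ) < Δ := by
    have : (1 : ℝ) ≤ Δ := by exact_mod_cast hΔ1
    linarith
  have hΔpow : (Δ : ℝ) ^ (e * (e + 1)) ≤ (B : ℝ) ^ (κ / 2) := by
    calc (Δ : ℝ) ^ (e * (e + 1)) ≤ ((B : ℝ) ^ ε) ^ (e * (e + 1)) :=
          pow_le_pow_left₀ hΔ0.le hΔle _
      _ = (B : ℝ) ^ (κ / 2) := by
          rw [← Real.rpow_natCast, ← Real.rpow_mul hB0.le]
          congr 1
          push_cast
          linarith
  have hkey : ∀ D : ℕ, (B : ℝ) ^ κ < (D : ℝ) →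
      |f.coeff e| * (Δ : ℤ) ^ (e * (e + 1)) < (D : ℤ) := by
    intro D hD
    have h1 : (|f.coeff e| : ℝ) * (Δ : ℝ) ^ (e * (e + 1)) < D := by
      calc (|f.coeff e| : ℝ) * (Δ : ℝ) ^ (e * (e + 1))
          ≤ (B : ℝ) ^ (κ / 2) * (B : ℝ) ^ (κ / 2) :=
            mul_le_mul hcB.le hΔpow (by positivity) (by positivity)
        _ = (B : ℝ) ^ κ := by
            rw [← Real.rpow_add hB0]
            congr 1
            ring
        _ < D := hD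
    rw [← Int.cast_abs] at h1
    exact_mod_cast h1
  -- the blocks
  have hblock : ((((B + 1) / Δ + 1 : ℕ)) : ℝ) ≤ 5 * (B : ℝ) ^ (1 - ε) := by
    have h1 : (((B + 1) / Δ : ℕ) : ℝ) ≤ ((B + 1 : ℕ) : ℝ) / (Δ : ℝ) := Nat.cast_div_le
    have h2 : ((B + 1 : ℕ) : ℝ) / (Δ : ℝ) ≤ (2 * B) / ((B : ℝ) ^ ε / 2) := by
      refine div_le_div₀ (by positivity) ?_ (by positivity) hΔge
      push_cast
      linarith
    have h3 : (2 * (B : ℝ)) / ((B : ℝ) ^ ε / 2) = 4 * (B : ℝ) ^ (1 - ε) := by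
      rw [Real.rpow_sub hB0, Real.rpow_one]
      field_simp
      norm_num
    have h4 : (1 : ℝ) ≤ (B : ℝ) ^ (1 - ε) := Real.one_le_rpow hB1 (by linarith)
    push_cast at h1 h2 ⊢
    linarith
  -- the two parts
  obtain ⟨S1, hS1⟩ : ∃ S1, S1 = S.filter fun s : ℕ => ∃ D : ℕ, D ∣ R ∧
    (D : ℤ) ∣ f.eval (s : ℤ) ∧ (B : ℝ) ^ κ < (D : ℝ) := ⟨_, rfl⟩
  obtain ⟨S2, hS2⟩ : ∃ S2, S2 = S.filter fun s : ℕ =>
    |((f.eval (s : ℤ) : ℤ) : ℝ)| < (B : ℝ) ^ ((e : ℝ) - κ) := ⟨_, rfl⟩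
  have hsub : S ⊆ S1 ∪ S2 := by
    intro s hs
    rw [Finset.mem_union, hS1, hS2, Finset.mem_filter, Finset.mem_filter]
    rcases (hS s hs).2 with h | h
    · exact Or.inl ⟨hs, h⟩
    · exact Or.inr ⟨hs, h⟩
  have h1 : (S1.card : ℝ) ≤ R.divisors.card * (e * (5 * (B : ℝ) ^ (1 - ε))) := by
    have h2 : S1 ⊆ (R.divisors.filter fun D : ℕ => (B : ℝ) ^ κ < (D : ℝ)).biUnion fun D =>
        S.filter fun s : ℕ => (D : ℤ) ∣ f.eval (s : ℤ) := by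
      intro s hs
      rw [hS1, Finset.mem_filter] at hs
      obtain ⟨hs0, D, hD1, hD2, hD3⟩ := hs
      rw [Finset.mem_biUnion]
      refine ⟨D, ?_, Finset.mem_filter.2 ⟨hs0, hD2⟩⟩
      rw [Finset.mem_filter, Nat.mem_divisors]
      exact ⟨⟨hD1, hR⟩, hD3⟩
    have h3 : S1.card ≤ (R.divisors.filter fun D : ℕ => (B : ℝ) ^ κ < (D : ℝ)).card *
        (e * ((B + 1) / Δ + 1)) := by
      refine (Finset.card_le_card h2).trans ?_
      refine Finset.card_biUnion_le_card_mul _ _ _ fun D hD => ?_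
      have hD' := (Finset.mem_filter.1 hD).2
      exact hGC f e Δ (B + 1) hdeg hc hΔ1 D (hkey D hD') _ fun s hs => by
        obtain ⟨h4, h5⟩ := Finset.mem_filter.1 hs
        exact ⟨(hS s h4).1, h5⟩
    have h4 : (R.divisors.filter fun D : ℕ => (B : ℝ) ^ κ < (D : ℝ)).card ≤ R.divisors.card :=
      Finset.card_le_card (Finset.filter_subset _ _)
    have h5 : (S1.card : ℝ) ≤ ((R.divisors.card * (e * ((B + 1) / Δ + 1)) : ℕ) : ℝ) := by
      exact_mod_cast h3.trans (Nat.mul_le_mul_right _ h4)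
    refine h5.trans ?_
    rw [Nat.cast_mul, Nat.cast_mul]
    exact mul_le_mul_of_nonneg_left (mul_le_mul_of_nonneg_left hblock he0.le) (Nat.cast_nonneg _)
  have h2 : (S2.card : ℝ) ≤ e * (3 * (B : ℝ) ^ (1 - κ / e)) := by
    have hr : (0 : ℝ) < (B : ℝ) ^ (1 - κ / e) := Real.rpow_pos_of_pos hB0 _
    have hκe : κ / e ≤ 1 := by
      rw [div_le_one he0]
      linarith
    have hr1 : (1 : ℝ) ≤ (B : ℝ) ^ (1 - κ / e) := Real.one_le_rpow hB1 (by linarith)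
    have hre : ((B : ℝ) ^ (1 - κ / e)) ^ e = (B : ℝ) ^ ((e : ℝ) - κ) := by
      rw [← Real.rpow_natCast, ← Real.rpow_mul hB0.le]
      congr 1
      field_simp
    have h3 := hSM f e he hnd _ hr (S2.map ⟨fun s : ℕ => (s : ℤ), Nat.cast_injective⟩)
      (fun s hs => by
        obtain ⟨t, ht, rfl⟩ := Finset.mem_map.1 hs
        rw [hS2, Finset.mem_filter] at ht
        rw [hre]
        exact ht.2)
    rw [Finset.card_map] at h3
    refine h3.trans (mul_le_mul_of_nonneg_left (by linarith) he0.le)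
  have h3 : (S.card : ℝ) ≤ S1.card + S2.card := by
    exact_mod_cast (Finset.card_le_card hsub).trans (Finset.card_union_le _ _)
  linarith

end Pool.Agent.K6.H12.UR
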