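import Mathlib
import Pool.Agent.K6.H12.UR.Line

/-!
The number of integral points where the values are small or have a large common divisor.
-/

set_option autoImplicit false

namespace Pool.Agent.K6.H12.UR

lemma card_box_le (n B : ℕ) (hB : 1 ≤ B) : ((box n B).card : ℝ) ≤ (3 * (B : ℝ)) ^ n := by
  have h1 : (box n B).card = (2 * B + 1) ^ n := by
    unfold box
    rw [Fintype.card_piFinset]
    simp only [Int.card_Icc, Finset.prod_const, Finset.card_univ, Fintype.card_fin]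
    congr 1
    omega
  rw [h1]
  push_cast
  have : (1 : ℝ) ≤ B := by exact_mod_cast hB
  exact pow_le_pow_left₀ (by positivity) (by linarith) n

theorem nt_of (hBZ : S_BZ) (hSM : S_SM) (hGC : S_GC) (hDC : S_DC) (hPB : S_PB) (hSZ : S_SZ)
    (hLD : S_LD) : S_NT := by
  classical
  intro n e M hn he F hom hcop κ' hκ'
  have he1 : (1 : ℝ) ≤ e := by exact_mod_cast he
  have he0 : (0 : ℝ) < e := by linarith
  obtain ⟨κ, hκ, hκ1, hκκ⟩ : ∃ κ : ℝ, 0 < κ ∧ κ ≤ 1 ∧ κ ≤ κ' :=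
    ⟨min κ' 1, lt_min hκ' one_pos, min_le_right _ _, min_le_left _ _⟩
  -- the direction
  obtain ⟨i₀, hi₀⟩ : ∃ i, F i ≠ 0 := by
    by_contra hcon
    push Not at hcon
    have h1 := hcop 0 fun i => by rw [hcon i, map_zero]
    exact not_isUnit_zero h1
  obtain ⟨v, hv⟩ : ∃ v : Fin n → ℤ, MvPolynomial.eval v (F i₀) ≠ 0 := by
    by_contra hcon
    push Not at hcon
    exact hi₀ (MvPolynomial.funext fun v => by rw [hcon v, map_zero])
  obtain ⟨c, hc⟩ : ∃ c, c = MvPolynomial.eval v (F i₀) := ⟨_, rfl⟩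
  have hc0 : c ≠ 0 := by rw [hc]; exact hv
  obtain ⟨L, hL⟩ : ∃ L : ℕ, ∀ i, |v i| ≤ L := by
    refine ⟨Finset.univ.sup fun i => (v i).natAbs, fun i => ?_⟩
    rw [Int.abs_eq_natAbs]
    exact_mod_cast Finset.le_sup (f := fun i => (v i).natAbs) (Finset.mem_univ i)
  obtain ⟨R, hR0, hR⟩ := hBZ n M F hcop v
  obtain ⟨C₁, K, hPBR⟩ := hPB n R
  obtain ⟨C₂, hSZR⟩ := hSZ n hn R hR0
  -- the exponents
  obtain ⟨ε, hε⟩ : ∃ ε : ℝ, ε = κ / (2 * (e * (e + 1))) := ⟨_, rfl⟩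
  have hee : (0 : ℝ) < 2 * (e * (e + 1)) := by positivity
  have hε0 : 0 < ε := by rw [hε]; positivity
  have hε' : ε * (2 * (e * (e + 1))) = κ := by
    rw [hε]
    field_simp
  have hεκ : ε ≤ κ / e := by
    rw [hε]
    refine div_le_div_of_nonneg_left hκ.le he0 ?_
    nlinarith
  have hκe1 : κ / e ≤ 1 := by
    rw [div_le_one he0]
    linarith
  obtain ⟨ε₁, hε₁⟩ : ∃ ε₁ : ℝ, ε₁ = ε / (2 * (K + 1)) := ⟨_, rfl⟩
  have hε₁0 : 0 < ε₁ := by rw [hε₁]; positivity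
  have hKε : K * ε₁ ≤ ε / 2 := by
    rw [hε₁, mul_div_assoc', div_le_div_iff₀ (by positivity) (by norm_num)]
    nlinarith
  obtain ⟨C₃, hC₃, hdiv⟩ := H353.divisor_bound_real ε₁ hε₁0
  obtain ⟨B₀, hB₀⟩ := exists_nat_gt (|(c : ℝ)| ^ (2 / κ))
  obtain ⟨L₁, hL₁⟩ : ∃ L₁ : ℕ, L₁ = 1 + L := ⟨_, rfl⟩
  have hL₁1 : (1 : ℝ) ≤ L₁ := by
    rw [hL₁]
    push_cast
    linarith [Nat.cast_nonneg (α := ℝ) L]
  obtain ⟨C₄, hC₄⟩ : ∃ C₄ : ℝ, C₄ = C₃ * ((C₁ + 1) * (L₁ : ℝ) ^ K) ^ ε₁ := ⟨_, rfl⟩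
  have hC₄0 : 0 < C₄ := by rw [hC₄]; positivity
  obtain ⟨C₅, hC₅⟩ : ∃ C₅ : ℝ, C₅ = 2 * C₂ * (L₁ : ℝ) ^ (n - 1) +
    (3 * L₁ : ℝ) ^ n * (C₄ * (e * 5) + e * 3) := ⟨_, rfl⟩
  have hC₅0 : 0 < C₅ := by rw [hC₅]; positivity
  have hε2 : ε / 2 ≤ 1 := by linarith
  have hn1 : (1 : ℝ) ≤ n := by exact_mod_cast hn
  refine ⟨ε / 2, C₅ + (box n B₀).card, by positivity, by positivity, fun B hB S hS hP => ?_⟩
  have hB1 : (1 : ℝ) ≤ B := by exact_mod_cast hB
  have hB0 : (0 : ℝ) < B := by linarith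
  have hpow : (1 : ℝ) ≤ (B : ℝ) ^ ((n : ℝ) - ε / 2) := Real.one_le_rpow hB1 (by linarith)
  rcases lt_or_ge B B₀ with hlt | hge
  · have h1 : S ⊆ box n B₀ := by
      intro t ht'
      have h2 := hS ht'
      unfold box at h2 ⊢
      rw [Fintype.mem_piFinset] at h2 ⊢
      intro i
      have h3 := Finset.mem_Icc.1 (h2 i)
      rw [Finset.mem_Icc]
      have h4 : (B : ℤ) ≤ B₀ := by exact_mod_cast hlt.le
      constructor <;> linarith [h3.1, h3.2]
    have h2 : (S.card : ℝ) ≤ (box n B₀).card := by exact_mod_cast Finset.card_le_card h1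
    have h3 : (0 : ℝ) ≤ ((box n B₀).card : ℝ) := Nat.cast_nonneg _
    nlinarith
  -- large `B`
  have hcB : |(c : ℝ)| < (B : ℝ) ^ (κ / 2) := by
    have h1 : |(c : ℝ)| ^ (2 / κ) < B := hB₀.trans_le (by exact_mod_cast hge)
    have h2 := Real.rpow_lt_rpow (by positivity) h1 (by positivity : 0 < κ / 2)
    rw [← Real.rpow_mul (abs_nonneg _)] at h2
    have h3 : 2 / κ * (κ / 2) = 1 := by field_simp
    rwa [h3, Real.rpow_one] at h2
  obtain ⟨B', hB'⟩ : ∃ B', B' = B + B * L := ⟨_, rfl⟩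
  have hB'e : (B' : ℝ) = L₁ * B := by
    rw [hB', hL₁]
    push_cast
    ring
  have hB'1 : 1 ≤ B' := by rw [hB']; omega
  have hsum := hDC n v L hL (fun t => t ∈ S) B
  have hSf : (box n B).filter (fun t => t ∈ S) = S := by
    ext t
    rw [Finset.mem_filter]
    exact ⟨fun h => h.2, fun h => ⟨hS h, h⟩⟩
  rw [hSf, ← hB'] at hsum
  -- the lines
  have hline : ∀ a ∈ box n B', MvPolynomial.eval a R ≠ 0 →
      (((Finset.range (B + 1)).filter fun s : ℕ => a + (s : ℤ) • v ∈ S).card : ℝ) ≤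
        (C₄ * (e * 5) + e * 3) * (B : ℝ) ^ (1 - ε / 2) := by
    intro a ha hRa
    obtain ⟨f, hf1, hf2, hf3⟩ := hLD n e (F i₀) (hom i₀) v a
    have hfc : f.coeff e ≠ 0 := by rw [hf3]; exact hv
    have hRa' : (MvPolynomial.eval a R).natAbs ≠ 0 := Int.natAbs_ne_zero.2 hRa
    have h1 := line_count hSM hGC he hf2 hfc hB hκ hκ1 hε' (by rw [hf3, ← hc]; exact hcB) hRa'
      ((Finset.range (B + 1)).filter fun s : ℕ => a + (s : ℤ) • v ∈ S) (fun s hs => by
        obtain ⟨h2, h3⟩ := Finset.mem_filter.1 hs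
        refine ⟨Finset.mem_range.1 h2, ?_⟩
        rcases hP _ h3 with ⟨d, hd1, hd2⟩ | h4
        · left
          refine ⟨d.natAbs, ?_, ?_, ?_⟩
          · have := hR a s d hd1
            rwa [← Int.natAbs_dvd_natAbs] at this
          · rw [hf1, Int.natAbs_dvd]
            exact hd1 i₀
          · rw [Nat.cast_natAbs, Int.cast_abs]
            refine lt_of_le_of_lt ?_ hd2
            exact Real.rpow_le_rpow_of_exponent_le hB1 hκκ
        · right
          rw [hf1]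
          refine lt_of_lt_of_le (h4 i₀) ?_
          exact Real.rpow_le_rpow_of_exponent_le hB1 (by linarith))
    refine h1.trans ?_
    have h2 : ((MvPolynomial.eval a R).natAbs.divisors.card : ℝ) ≤ C₄ * (B : ℝ) ^ (ε / 2) := by
      refine (hdiv _ hRa').trans ?_
      have h3 : ((MvPolynomial.eval a R).natAbs : ℝ) ≤ ((C₁ + 1) * (L₁ : ℝ) ^ K) * (B : ℝ) ^ K := by
        have h4 := hPBR B' hB'1 a ha
        have h5 : ((MvPolynomial.eval a R).natAbs : ℝ) ≤ C₁ * (B' : ℝ) ^ K := by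
          rw [Nat.cast_natAbs]
          exact_mod_cast h4
        rw [hB'e, mul_pow] at h5
        have h6 : (0 : ℝ) ≤ (L₁ : ℝ) ^ K * (B : ℝ) ^ K := by positivity
        nlinarith
      have h4 : (0 : ℝ) ≤ ((MvPolynomial.eval a R).natAbs : ℝ) := Nat.cast_nonneg _
      calc C₃ * ((MvPolynomial.eval a R).natAbs : ℝ) ^ ε₁
          ≤ C₃ * (((C₁ + 1) * (L₁ : ℝ) ^ K) * (B : ℝ) ^ K) ^ ε₁ :=
            mul_le_mul_of_nonneg_left (Real.rpow_le_rpow h4 h3 hε₁0.le) hC₃.le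
        _ = C₄ * (B : ℝ) ^ (K * ε₁) := by
            rw [Real.mul_rpow (by positivity) (by positivity), hC₄, ← Real.rpow_natCast (B : ℝ) K,
              ← Real.rpow_mul hB0.le]
            ring
        _ ≤ C₄ * (B : ℝ) ^ (ε / 2) :=
            mul_le_mul_of_nonneg_left (Real.rpow_le_rpow_of_exponent_le hB1 hKε) hC₄0.le
    have h3 : (B : ℝ) ^ (1 - κ / e) ≤ (B : ℝ) ^ (1 - ε / 2) :=
      Real.rpow_le_rpow_of_exponent_le hB1 (by linarith)
    have h4 : (B : ℝ) ^ (ε / 2) * (B : ℝ) ^ (1 - ε) = (B : ℝ) ^ (1 - ε / 2) := by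
      rw [← Real.rpow_add hB0]
      congr 1
      ring
    calc ((MvPolynomial.eval a R).natAbs.divisors.card : ℝ) * (e * (5 * (B : ℝ) ^ (1 - ε))) +
          e * (3 * (B : ℝ) ^ (1 - κ / e))
        ≤ (C₄ * (B : ℝ) ^ (ε / 2)) * (e * (5 * (B : ℝ) ^ (1 - ε))) +
          e * (3 * (B : ℝ) ^ (1 - ε / 2)) := by
          refine add_le_add (mul_le_mul_of_nonneg_right h2 (by positivity)) ?_
          exact mul_le_mul_of_nonneg_left (by linarith) he0.le
      _ = C₄ * (e * 5) * ((B : ℝ) ^ (ε / 2) * (B : ℝ) ^ (1 - ε)) +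
          e * 3 * (B : ℝ) ^ (1 - ε / 2) := by ring
      _ = _ := by rw [h4]; ring
  -- the sum
  have htot : ((B : ℝ) + 1) * S.card ≤ C₅ * (B : ℝ) ^ ((n : ℝ) + 1 - ε / 2) := by
    have h1 : (((B + 1) * S.card : ℕ) : ℝ) ≤ ∑ a ∈ box n B',
        (((Finset.range (B + 1)).filter fun s : ℕ => a + (s : ℤ) • v ∈ S).card : ℝ) := by
      rw [← Nat.cast_sum]
      exact_mod_cast hsum
    push_cast at h1
    refine h1.trans ?_
    rw [← Finset.sum_filter_add_sum_filter_not (box n B') fun a => MvPolynomial.eval a R = 0]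
    have h2 : ∑ a ∈ (box n B').filter (fun a => MvPolynomial.eval a R = 0),
        (((Finset.range (B + 1)).filter fun s : ℕ => a + (s : ℤ) • v ∈ S).card : ℝ) ≤
          2 * C₂ * (L₁ : ℝ) ^ (n - 1) * (B : ℝ) ^ ((n : ℝ) + 1 - ε / 2) := by
      have h3 : ∀ a ∈ (box n B').filter (fun a => MvPolynomial.eval a R = 0),
          (((Finset.range (B + 1)).filter fun s : ℕ => a + (s : ℤ) • v ∈ S).card : ℝ) ≤
            2 * B := by
        intro a _
        have h4 : ((Finset.range (B + 1)).filter fun s : ℕ => a + (s : ℤ) • v ∈ S).card ≤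
            B + 1 := (Finset.card_filter_le _ _).trans (by rw [Finset.card_range])
        have h5 : (((Finset.range (B + 1)).filter fun s : ℕ => a + (s : ℤ) • v ∈ S).card : ℝ) ≤
            B + 1 := by exact_mod_cast h4
        linarith
      refine (Finset.sum_le_card_nsmul _ _ _ h3).trans ?_
      rw [nsmul_eq_mul]
      have h4 : (((box n B').filter (fun a => MvPolynomial.eval a R = 0)).card : ℝ) ≤
          C₂ * (B' : ℝ) ^ (n - 1) := by exact_mod_cast hSZR B' hB'1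
      have h5 : (B : ℝ) ^ n ≤ (B : ℝ) ^ ((n : ℝ) + 1 - ε / 2) := by
        rw [← Real.rpow_natCast]
        exact Real.rpow_le_rpow_of_exponent_le hB1 (by linarith)
      have h6 : (B : ℝ) ^ (n - 1) * B = (B : ℝ) ^ n := by
        rw [← pow_succ, Nat.sub_add_cancel hn]
      calc (((box n B').filter (fun a => MvPolynomial.eval a R = 0)).card : ℝ) * (2 * B)
          ≤ C₂ * (B' : ℝ) ^ (n - 1) * (2 * B) := mul_le_mul_of_nonneg_right h4 (by positivity)
        _ = 2 * C₂ * (L₁ : ℝ) ^ (n - 1) * ((B : ℝ) ^ (n - 1) * B) := by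
            rw [hB'e, mul_pow]
            ring
        _ ≤ _ := by
            rw [h6]
            exact mul_le_mul_of_nonneg_left h5 (by positivity)
    have h3 : ∑ a ∈ (box n B').filter (fun a => ¬ MvPolynomial.eval a R = 0),
        (((Finset.range (B + 1)).filter fun s : ℕ => a + (s : ℤ) • v ∈ S).card : ℝ) ≤
          (3 * L₁ : ℝ) ^ n * (C₄ * (e * 5) + e * 3) * (B : ℝ) ^ ((n : ℝ) + 1 - ε / 2) := by
      have h4 : ∀ a ∈ (box n B').filter (fun a => ¬ MvPolynomial.eval a R = 0),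
          (((Finset.range (B + 1)).filter fun s : ℕ => a + (s : ℤ) • v ∈ S).card : ℝ) ≤
            (C₄ * (e * 5) + e * 3) * (B : ℝ) ^ (1 - ε / 2) := fun a ha => by
        obtain ⟨h5, h6⟩ := Finset.mem_filter.1 ha
        exact hline a h5 h6
      refine (Finset.sum_le_card_nsmul _ _ _ h4).trans ?_
      rw [nsmul_eq_mul]
      have h5 : (((box n B').filter (fun a => ¬ MvPolynomial.eval a R = 0)).card : ℝ) ≤
          (3 * (B' : ℝ)) ^ n := by
        refine le_trans ?_ (card_box_le n B' hB'1)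
        exact_mod_cast Finset.card_le_card (Finset.filter_subset _ _)
      have h6 : (B : ℝ) ^ n * (B : ℝ) ^ (1 - ε / 2) = (B : ℝ) ^ ((n : ℝ) + 1 - ε / 2) := by
        rw [← Real.rpow_natCast, ← Real.rpow_add hB0]
        congr 1
        ring
      have h7 : 0 ≤ (C₄ * (e * 5) + e * 3) * (B : ℝ) ^ (1 - ε / 2) := by positivity
      calc (((box n B').filter (fun a => ¬ MvPolynomial.eval a R = 0)).card : ℝ) *
            ((C₄ * (e * 5) + e * 3) * (B : ℝ) ^ (1 - ε / 2))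
          ≤ (3 * (B' : ℝ)) ^ n * ((C₄ * (e * 5) + e * 3) * (B : ℝ) ^ (1 - ε / 2)) :=
            mul_le_mul_of_nonneg_right h5 h7
        _ = (3 * L₁ : ℝ) ^ n * (C₄ * (e * 5) + e * 3) *
            ((B : ℝ) ^ n * (B : ℝ) ^ (1 - ε / 2)) := by
            rw [hB'e, ← mul_assoc 3, mul_pow]
            ring
        _ = _ := by rw [h6]
    rw [hC₅, add_mul]
    exact add_le_add h2 h3
  have h1 : (B : ℝ) * S.card ≤ C₅ * (B : ℝ) ^ ((n : ℝ) + 1 - ε / 2) := by
    have : (0 : ℝ) ≤ S.card := Nat.cast_nonneg _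
    linarith
  have h2 : (B : ℝ) ^ ((n : ℝ) + 1 - ε / 2) = B * (B : ℝ) ^ ((n : ℝ) - ε / 2) := by
    conv_rhs => rw [← Real.rpow_one (B : ℝ), ← Real.rpow_mul hB0.le]
    rw [one_mul, ← Real.rpow_add hB0]
    congr 1
    ring
  rw [h2] at h1
  have h3 : (S.card : ℝ) ≤ C₅ * (B : ℝ) ^ ((n : ℝ) - ε / 2) := by
    refine le_of_mul_le_mul_left ?_ hB0
    linarith
  refine h3.trans (mul_le_mul_of_nonneg_right ?_ (by linarith))
  linarith [Nat.cast_nonneg (α := ℝ) (box n B₀).card]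

end Pool.Agent.K6.H12.UR
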