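import Pool.Agent.K6.H12.UR.Def

set_option autoImplicit false

namespace Pool.Agent.K6.H12.UR

theorem sm_interval (c r : ℝ) (hr : 0 < r) (T : Finset ℤ) (hT : ∀ s ∈ T, |(s : ℝ) - c| < r) :
    (T.card : ℝ) ≤ 2 * r + 1 := by
  have hsub : T ⊆ Finset.Icc ⌈c - r⌉ ⌊c + r⌋ := by
    intro s hs
    have h := abs_lt.mp (hT s hs)
    rw [Finset.mem_Icc]
    exact ⟨Int.ceil_le.mpr (by linarith), Int.le_floor.mpr (by linarith)⟩
  have h1 := Finset.card_le_card hsub
  rw [Int.card_Icc] at h1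
  have h2 : (T.card : ℤ) ≤ max (⌊c + r⌋ + 1 - ⌈c - r⌉) 0 := by
    rw [← Int.toNat_eq_max]
    exact_mod_cast h1
  have h3 : (T.card : ℝ) ≤ max ((⌊c + r⌋ : ℝ) + 1 - (⌈c - r⌉ : ℝ)) 0 := by exact_mod_cast h2
  refine h3.trans (max_le ?_ (by linarith))
  have h4 := Int.floor_le (c + r)
  have h5 := Int.le_ceil (c - r)
  linarith

theorem sm_prod (z : ℂ) (r : ℝ) (hr : 0 < r) (m : Multiset ℂ) (h : ∀ a ∈ m, r ≤ ‖z - a‖) :
    r ^ Multiset.card m ≤ ‖(m.map fun a => z - a).prod‖ := by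
  induction m using Multiset.induction_on with
  | empty => simp
  | cons a m ih =>
    rw [Multiset.card_cons, Multiset.map_cons, Multiset.prod_cons, norm_mul, pow_succ, mul_comm]
    exact mul_le_mul (h a (Multiset.mem_cons_self a m))
      (ih fun b hb => h b (Multiset.mem_cons_of_mem hb)) (pow_nonneg hr.le _) (norm_nonneg _)

theorem t_SM : S_SM := by
  intro f e he hdeg r hr S hS
  classical
  set g : Polynomial ℂ := f.map (Int.castRingHom ℂ) with hg
  have hf0 : f ≠ 0 := by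
    rintro rfl
    simp at hdeg
    omega
  have hinj : Function.Injective (Int.castRingHom ℂ) := Int.cast_injective
  have hgdeg : g.natDegree = e := by
    rw [hg, Polynomial.natDegree_map_eq_of_injective hinj, hdeg]
  have hsp : g.Splits := IsAlgClosed.splits g
  have hcard : Multiset.card g.roots = e := by
    rw [← hsp.natDegree_eq_card_roots, hgdeg]
  have hlead : 1 ≤ ‖g.leadingCoeff‖ := by
    rw [hg, Polynomial.leadingCoeff_map_of_injective hinj]
    have h1 : f.leadingCoeff ≠ 0 := Polynomial.leadingCoeff_ne_zero.mpr hf0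
    have h2 : (1 : ℤ) ≤ |f.leadingCoeff| := Int.one_le_abs h1
    simp only [eq_intCast, Complex.norm_intCast]
    exact_mod_cast h2
  have hex : ∀ s ∈ S, ∃ a ∈ g.roots.toFinset, |(s : ℝ) - a.re| < r := by
    intro s hs
    by_contra hcon
    push Not at hcon
    have h1 : ∀ a ∈ g.roots, r ≤ ‖((s : ℤ) : ℂ) - a‖ := by
      intro a ha
      refine (hcon a (Multiset.mem_toFinset.mpr ha)).trans ?_
      have := Complex.abs_re_le_norm (((s : ℤ) : ℂ) - a)
      simpa using this
    have h2 := sm_prod _ r hr g.roots h1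
    rw [hcard] at h2
    have h3 : g.eval ((s : ℤ) : ℂ) = ((f.eval s : ℤ) : ℂ) := by
      have : (f.map (Int.castRingHom ℂ)).eval ((Int.castRingHom ℂ) s)
          = (Int.castRingHom ℂ) (f.eval s) := by
        rw [Polynomial.eval_map, Polynomial.eval₂_hom]
      exact this
    have h4 := hsp.eval_eq_prod_roots ((s : ℤ) : ℂ)
    rw [h3] at h4
    have h5 : ‖((f.eval s : ℤ) : ℂ)‖ = |((f.eval s : ℤ) : ℝ)| := by
      rw [Complex.norm_intCast]
    have h6 := hS s hs
    rw [← h5, h4, norm_mul] at h6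
    have h7 : r ^ e ≤ ‖g.leadingCoeff‖ * ‖(g.roots.map fun a => ((s : ℤ) : ℂ) - a).prod‖ := by
      calc r ^ e ≤ ‖(g.roots.map fun a => ((s : ℤ) : ℂ) - a).prod‖ := h2
        _ = 1 * ‖(g.roots.map fun a => ((s : ℤ) : ℂ) - a).prod‖ := (one_mul _).symm
        _ ≤ _ := mul_le_mul_of_nonneg_right hlead (norm_nonneg _)
    exact absurd (lt_of_lt_of_le h6 h7) (lt_irrefl _)
  have hcov : S ⊆ g.roots.toFinset.biUnion fun a => S.filter fun s : ℤ => |(s : ℝ) - a.re| < r := by
    intro s hs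
    obtain ⟨a, ha, hb⟩ := hex s hs
    exact Finset.mem_biUnion.mpr ⟨a, ha, Finset.mem_filter.mpr ⟨hs, hb⟩⟩
  have h8 : (S.card : ℝ) ≤ ∑ a ∈ g.roots.toFinset,
      ((S.filter fun s : ℤ => |(s : ℝ) - a.re| < r).card : ℝ) := by
    exact_mod_cast (Finset.card_le_card hcov).trans Finset.card_biUnion_le
  have h9 : ∑ a ∈ g.roots.toFinset, ((S.filter fun s : ℤ => |(s : ℝ) - a.re| < r).card : ℝ) ≤
      ∑ _a ∈ g.roots.toFinset, (2 * r + 1) := by
    refine Finset.sum_le_sum fun a _ => ?_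
    refine sm_interval a.re r hr _ fun s hs => ?_
    exact (Finset.mem_filter.mp hs).2
  refine h8.trans (h9.trans ?_)
  rw [Finset.sum_const, nsmul_eq_mul]
  refine mul_le_mul_of_nonneg_right ?_ (by linarith)
  have : g.roots.toFinset.card ≤ e := by
    rw [← hcard]
    exact Multiset.toFinset_card_le _
  exact_mod_cast this

end Pool.Agent.K6.H12.UR
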