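import Pool.Agent.K6.H12.UR.Def

set_option autoImplicit false

/-!
SZ and PB (helper53): the number of the zeros of a polynomial in a box, the size of its values.
-/

namespace Pool.Agent.K6.H12.UR

theorem t_PB : S_PB := by
  intro n R
  induction R using MvPolynomial.induction_on with
  | C c =>
    refine ⟨c.natAbs, 0, fun B hB a _ => ?_⟩
    rw [MvPolynomial.eval_C, pow_zero, mul_one, Int.natCast_natAbs]
  | add p q hp hq =>
    obtain ⟨C1, K1, h1⟩ := hp
    obtain ⟨C2, K2, h2⟩ := hq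
    refine ⟨C1 + C2, max K1 K2, fun B hB a ha => ?_⟩
    have h3 := h1 B hB a ha
    have h4 := h2 B hB a ha
    have hB' : (1 : ℤ) ≤ B := by exact_mod_cast hB
    have h5 : (B : ℤ) ^ K1 ≤ (B : ℤ) ^ max K1 K2 := pow_le_pow_right₀ hB' (le_max_left _ _)
    have h6 : (B : ℤ) ^ K2 ≤ (B : ℤ) ^ max K1 K2 := pow_le_pow_right₀ hB' (le_max_right _ _)
    rw [map_add]
    calc |MvPolynomial.eval a p + MvPolynomial.eval a q|
        ≤ |MvPolynomial.eval a p| + |MvPolynomial.eval a q| := abs_add_le _ _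
      _ ≤ C1 * (B : ℤ) ^ K1 + C2 * (B : ℤ) ^ K2 := add_le_add h3 h4
      _ ≤ C1 * (B : ℤ) ^ max K1 K2 + C2 * (B : ℤ) ^ max K1 K2 :=
        add_le_add (mul_le_mul_of_nonneg_left h5 (Int.natCast_nonneg _))
          (mul_le_mul_of_nonneg_left h6 (Int.natCast_nonneg _))
      _ = ((C1 + C2 : ℕ) : ℤ) * (B : ℤ) ^ max K1 K2 := by push_cast; ring
  | mul_X p i hp =>
    obtain ⟨C1, K1, h1⟩ := hp
    refine ⟨C1, K1 + 1, fun B hB a ha => ?_⟩
    have h3 := h1 B hB a ha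
    have h4 : |a i| ≤ B := by
      simp only [box, Fintype.mem_piFinset, Finset.mem_Icc] at ha
      exact abs_le.2 (ha i)
    rw [map_mul, MvPolynomial.eval_X, abs_mul, pow_succ, ← mul_assoc]
    exact mul_le_mul h3 h4 (abs_nonneg _) (by positivity)

theorem t_SZ : S_SZ := by
  intro n hn R hR
  refine ⟨R.totalDegree * 3 ^ (n - 1), fun B hB => ?_⟩
  have h1 := MvPolynomial.schwartz_zippel_totalDegree hR (Finset.Icc (-(B : ℤ)) B)
  have h2 : (Finset.Icc (-(B : ℤ)) B).card = 2 * B + 1 := by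
    rw [Int.card_Icc]
    omega
  rw [h2] at h1
  have h3 : (((box n B).filter fun a => MvPolynomial.eval a R = 0).card : ℚ≥0) /
      (((2 * B + 1 : ℕ) : ℚ≥0) ^ n) ≤ R.totalDegree / ((2 * B + 1 : ℕ) : ℚ≥0) := h1
  have h4 : (0 : ℚ≥0) < ((2 * B + 1 : ℕ) : ℚ≥0) := by positivity
  have h5 : (((box n B).filter fun a => MvPolynomial.eval a R = 0).card : ℚ≥0) ≤
      R.totalDegree * ((2 * B + 1 : ℕ) : ℚ≥0) ^ (n - 1) := by
    rw [div_le_iff₀ (pow_pos h4 n)] at h3
    refine h3.trans (le_of_eq ?_)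
    obtain ⟨m, rfl⟩ : ∃ m, n = m + 1 := ⟨n - 1, by omega⟩
    rw [Nat.add_sub_cancel, pow_succ]
    field_simp
  have h6 : ((box n B).filter fun a => MvPolynomial.eval a R = 0).card ≤
      R.totalDegree * (2 * B + 1) ^ (n - 1) := by exact_mod_cast h5
  refine h6.trans ?_
  have h7 : (2 * B + 1) ^ (n - 1) ≤ (3 * B) ^ (n - 1) := Nat.pow_le_pow_left (by omega) _
  calc R.totalDegree * (2 * B + 1) ^ (n - 1) ≤ R.totalDegree * (3 * B) ^ (n - 1) :=
        Nat.mul_le_mul_left _ h7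
    _ = R.totalDegree * 3 ^ (n - 1) * B ^ (n - 1) := by rw [mul_pow, mul_assoc]

end Pool.Agent.K6.H12.UR
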